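import Mathlib

/-!
# Minimisers of submodular functions are invariant
-/

set_option autoImplicit false

namespace Pool.Agent.W5h20.Sym

/-- A submodular function which attains its minimum has a minimiser which is fixed by all its
symmetries. -/
theorem exists_fixed {L : Type*} [Lattice L] (P : Set L)
    (hinf : ∀ x ∈ P, ∀ y ∈ P, x ⊓ y ∈ P) (hsup : ∀ x ∈ P, ∀ y ∈ P, x ⊔ y ∈ P)
    (F : L → ℝ) (r : L → ℕ)
    (hF : ∀ x ∈ P, ∀ y ∈ P, F (x ⊓ y) + F (x ⊔ y) ≤ F x + F y)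
    (hr : ∀ x ∈ P, ∀ y ∈ P, x < y → r x < r y)
    (hmin : ∃ x ∈ P, ∀ y ∈ P, F x ≤ F y) :
    ∃ x ∈ P, (∀ y ∈ P, F x ≤ F y) ∧
      ∀ σ : L → L, σ x ∈ P → F (σ x) = F x → r (σ x) = r x → σ x = x := by
  classical
  -- a minimiser of least rank
  obtain ⟨x, ⟨hxP, hxF⟩, hxr⟩ : ∃ x, (x ∈ P ∧ ∀ y ∈ P, F x ≤ F y) ∧
      ∀ y, (y ∈ P ∧ ∀ z ∈ P, F y ≤ F z) → r x ≤ r y := by
    have h1 : ∃ n, ∃ x, (x ∈ P ∧ ∀ y ∈ P, F x ≤ F y) ∧ r x = n := by
      obtain ⟨x, hx, h⟩ := hmin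
      exact ⟨r x, x, ⟨hx, h⟩, rfl⟩
    obtain ⟨x, hx, hn⟩ := Nat.find_spec h1
    refine ⟨x, hx, fun y hy => ?_⟩
    rw [hn]
    exact Nat.find_min' h1 ⟨y, hy, rfl⟩
  refine ⟨x, hxP, hxF, ?_⟩
  intro σ hσP hσF hσr
  have h1 := hF x hxP (σ x) hσP
  have h2 := hxF _ (hsup x hxP (σ x) hσP)
  have h3 : F (x ⊓ σ x) ≤ F x := by linarith
  have h4 : ∀ z ∈ P, F (x ⊓ σ x) ≤ F z := fun z hz => h3.trans (hxF z hz)
  have h5 := hxr _ ⟨hinf x hxP (σ x) hσP, h4⟩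
  have h6 : x ⊓ σ x = x := by
    by_contra hne
    have := hr _ (hinf x hxP (σ x) hσP) _ hxP (lt_of_le_of_ne (inf_le_left : x ⊓ σ x ≤ x) hne)
    omega
  have h7 : x ≤ σ x := h6.symm.le.trans inf_le_right
  by_contra hne
  have := hr _ hxP _ hσP (lt_of_le_of_ne h7 (Ne.symm hne))
  omega

/-- existence of minimisers -/
theorem exists_min {L : Type*} (P : Set L) (hne : P.Nonempty) (f : L → ℝ) (r : L → ℕ) (g : ℕ → ℝ)
    (hf0 : ∀ x ∈ P, 0 ≤ f x) (hfin : (f '' P).Finite) (hg : ∀ M : ℝ, {n | g n ≤ M}.Finite) :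
    ∃ x ∈ P, ∀ y ∈ P, f x + g (r x) ≤ f y + g (r y) := by
  classical
  obtain ⟨x0, hx0⟩ := hne
  set M := f x0 + g (r x0) with hM
  set S : Set ℝ := {v | ∃ x ∈ P, v = f x + g (r x) ∧ v ≤ M} with hS
  have hSfin : S.Finite := by
    have h1 : S ⊆ Set.image2 (fun a n => a + g n) (f '' P) {n | g n ≤ M} := by
      rintro v ⟨x, hx, hv, hvM⟩
      refine ⟨f x, ⟨x, hx, rfl⟩, r x, ?_, hv.symm⟩
      show g (r x) ≤ M
      have := hf0 x hx
      linarith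
    exact (hfin.image2 _ (hg M)).subset h1
  have hSne : S.Nonempty := ⟨M, x0, hx0, rfl, le_refl _⟩
  obtain ⟨v, ⟨x, hx, hv, hvM⟩, hmin⟩ := Set.exists_min_image S id hSfin hSne
  refine ⟨x, hx, fun y hy => ?_⟩
  by_cases h : f y + g (r y) ≤ M
  · have := hmin _ ⟨y, hy, rfl, h⟩
    simp only [id] at this
    linarith
  · push Not at h
    linarith

end Pool.Agent.W5h20.Sym

namespace Pool.Agent.W5h20.Sym

open Finset

theorem finite_range_sum {L : Type*} (s : Finset (L → ℝ)) (hs : ∀ φ ∈ s, (Set.range φ).Finite) :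
    (Set.range fun x => ∑ φ ∈ s, φ x).Finite := by
  classical
  induction s using Finset.induction_on with
  | empty =>
    refine (Set.finite_singleton (0 : ℝ)).subset ?_
    rintro _ ⟨x, rfl⟩
    simp
  | insert φ s hφ ih =>
    have h1 := ih (fun ψ hψ => hs ψ (mem_insert_of_mem hψ))
    have h2 := hs φ (mem_insert_self _ _)
    refine (h2.image2 (fun a b => a + b) h1).subset ?_
    rintro _ ⟨x, rfl⟩
    refine ⟨φ x, ⟨x, rfl⟩, ∑ ψ ∈ s, ψ x, ⟨x, rfl⟩, ?_⟩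
    simp only
    rw [sum_insert hφ]

/-- **Averaging and uncrossing.** A family of submodular functions which is permuted by a group has a
common good point which is fixed by the group. -/
theorem core {L : Type*} [Lattice L] {G : Type*} [Group G] (P : Set L)
    (hinf : ∀ x ∈ P, ∀ y ∈ P, x ⊓ y ∈ P) (hsup : ∀ x ∈ P, ∀ y ∈ P, x ⊔ y ∈ P)
    (σ : G → L → L) (hσP : ∀ g, ∀ x ∈ P, σ g x ∈ P)
    (f : G → L → ℝ) (hf : ∀ g h x, f g (σ h x) = f (h⁻¹ * g) x) (hf0 : ∀ g x, 0 ≤ f g x)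
    (hfinr : ∀ g, (Set.range (f g)).Finite)
    (hsub : ∀ g, ∀ x ∈ P, ∀ y ∈ P, f g (x ⊓ y) + f g (x ⊔ y) ≤ f g x + f g y)
    (hfam : (Set.range f).Finite) (r : L → ℕ)
    (hr : ∀ x ∈ P, ∀ y ∈ P, x < y → r x < r y) (hrσ : ∀ g x, r (σ g x) = r x) (c : ℕ → ℝ)
    (hc : ∀ M : ℝ, {n | c n ≤ M}.Finite)
    (hcsub : ∀ x ∈ P, ∀ y ∈ P, c (r (x ⊓ y)) + c (r (x ⊔ y)) ≤ c (r x) + c (r y))
    (x0 : L) (hx0 : x0 ∈ P) (B : ℝ) (hB : ∀ g, f g x0 ≤ B) :
    ∃ x ∈ P, (∀ g, σ g x = x) ∧ f 1 x + c (r x) ≤ B + c (r x0) := by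
  classical
  set 𝓕 : Finset (L → ℝ) := hfam.toFinset with h𝓕
  have hmem : ∀ φ, φ ∈ 𝓕 ↔ ∃ g, f g = φ := by
    intro φ
    rw [h𝓕, Set.Finite.mem_toFinset]
    rfl
  have hN : 0 < 𝓕.card := card_pos.2 ⟨f 1, (hmem _).2 ⟨1, rfl⟩⟩
  have hNr : (0 : ℝ) < 𝓕.card := by exact_mod_cast hN
  set Fs : L → ℝ := fun x => ∑ φ ∈ 𝓕, φ x with hFs
  set F : L → ℝ := fun x => Fs x + 𝓕.card * c (r x) with hFdef
  have hFsub : ∀ x ∈ P, ∀ y ∈ P, F (x ⊓ y) + F (x ⊔ y) ≤ F x + F y := by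
    intro x hx y hy
    have h1 : Fs (x ⊓ y) + Fs (x ⊔ y) ≤ Fs x + Fs y := by
      simp only [hFs]
      rw [← sum_add_distrib, ← sum_add_distrib]
      refine sum_le_sum fun φ hφ => ?_
      obtain ⟨g, rfl⟩ := (hmem φ).1 hφ
      exact hsub g x hx y hy
    have h2 := mul_le_mul_of_nonneg_left (hcsub x hx y hy) hNr.le
    simp only [hFdef]
    linarith
  have hmin : ∃ x ∈ P, ∀ y ∈ P, F x ≤ F y := by
    have h1 : (Fs '' P).Finite := (finite_range_sum 𝓕 (by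
      intro φ hφ
      obtain ⟨g, rfl⟩ := (hmem φ).1 hφ
      exact hfinr g)).subset (Set.image_subset_range _ _)
    refine exists_min P ⟨x0, hx0⟩ Fs r (fun n => 𝓕.card * c n) ?_ h1 ?_
    · intro x _
      simp only [hFs]
      refine sum_nonneg fun φ hφ => ?_
      obtain ⟨g, rfl⟩ := (hmem φ).1 hφ
      exact hf0 g x
    · intro M
      have h2 : {n | (𝓕.card : ℝ) * c n ≤ M} = {n | c n ≤ M / 𝓕.card} := by
        ext n
        simp only [Set.mem_ofPred_eq]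
        rw [le_div_iff₀ hNr, mul_comm]
      rw [h2]
      exact hc _
  obtain ⟨x, hxP, hxmin, hxfix⟩ := exists_fixed P hinf hsup F r hFsub hr hmin
  -- the symmetries
  have hcomp : ∀ h : G, ∀ y, Fs (σ h y) = Fs y := by
    intro h y
    have h1 : 𝓕.image (fun φ => fun z => φ (σ h z)) = 𝓕 := by
      apply eq_of_subset_of_card_le
      · intro ψ hψ
        obtain ⟨φ, hφ, rfl⟩ := mem_image.1 hψ
        obtain ⟨g, rfl⟩ := (hmem φ).1 hφ
        refine (hmem _).2 ⟨h⁻¹ * g, ?_⟩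
        funext z
        exact (hf g h z).symm
      · rw [card_image_of_injOn]
        intro φ hφ ψ hψ hφψ
        obtain ⟨g, rfl⟩ := (hmem φ).1 (mem_coe.1 hφ)
        obtain ⟨g', rfl⟩ := (hmem ψ).1 (mem_coe.1 hψ)
        funext z
        have h2 := congrFun hφψ (σ h⁻¹ z)
        simp only [hf] at h2
        have e1 : ∀ g : G, h⁻¹⁻¹ * (h⁻¹ * g) = g := fun g => by group
        rw [e1, e1] at h2
        exact h2
    have hinj : Set.InjOn (fun φ : L → ℝ => fun z => φ (σ h z)) (𝓕 : Set (L → ℝ)) := by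
      apply Finset.card_image_iff.1
      rw [h1]
    calc Fs (σ h y) = ∑ φ ∈ 𝓕, (fun z => φ (σ h z)) y := rfl
      _ = ∑ ψ ∈ 𝓕.image (fun φ => fun z => φ (σ h z)), ψ y := by
        rw [sum_image (fun a ha b hb hab => hinj ha hb hab)]
      _ = Fs y := by rw [h1]
  have hfix : ∀ g, σ g x = x := by
    intro g
    refine hxfix (σ g) (hσP g x hxP) ?_ (hrσ g x)
    simp only [hFdef]
    rw [hcomp, hrσ]
  refine ⟨x, hxP, hfix, ?_⟩
  have hconst : ∀ φ ∈ 𝓕, φ x = f 1 x := by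
    intro φ hφ
    obtain ⟨g, rfl⟩ := (hmem φ).1 hφ
    have := hf g g x
    rw [hfix g, inv_mul_cancel] at this
    exact this
  have h1 : F x ≤ F x0 := hxmin x0 hx0
  have h2 : Fs x = 𝓕.card * f 1 x := by
    simp only [hFs]
    rw [sum_congr rfl hconst, sum_const, nsmul_eq_mul]
  have h3 : Fs x0 ≤ 𝓕.card * B := by
    simp only [hFs]
    have : ∑ φ ∈ 𝓕, φ x0 ≤ ∑ φ ∈ 𝓕, B := by
      refine sum_le_sum fun φ hφ => ?_
      obtain ⟨g, rfl⟩ := (hmem φ).1 hφ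
      exact hB g
    rw [sum_const, nsmul_eq_mul] at this
    exact this
  simp only [hFdef] at h1
  rw [h2] at h1
  have h4 : (𝓕.card : ℝ) * (f 1 x + c (r x)) ≤ 𝓕.card * (B + c (r x0)) := by
    rw [mul_add, mul_add]
    linarith
  exact le_of_mul_le_mul_left h4 hNr

end Pool.Agent.W5h20.Sym
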