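import Mathlib
import Pool.Agent.Y359.PE.Ent
import Pool.Agent.W5h20.Sym.Lat

/-!
# The entropy of a random element modulo a subgroup
-/

set_option autoImplicit false

namespace Pool.Agent.W5h20.Sym

open Finset Pool.Agent.Y359.PE
open scoped Pointwise

variable {α : Type*} {Γ : Type*} [AddCommGroup Γ]

/-- the entropy of `g (a)` modulo `V`, for a random element `a` of `S` -/
noncomputable def hq (S : Finset α) (g : α → Γ) (V : AddSubgroup Γ) : ℝ :=
  h S (fun a => (QuotientAddGroup.mk (g a) : Γ ⧸ V))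

theorem mk_eq {V : AddSubgroup Γ} {x y : Γ} :
    ((QuotientAddGroup.mk x : Γ ⧸ V) = QuotientAddGroup.mk y) ↔ x - y ∈ V := by
  rw [QuotientAddGroup.eq]
  have : -x + y = -(x - y) := by abel
  rw [this, neg_mem_iff]

theorem hq_nonneg (S : Finset α) (g : α → Γ) (V : AddSubgroup Γ) : 0 ≤ hq S g V := h_nonneg _ _

theorem hq_congr {S : Finset α} {g g' : α → Γ} {V V' : AddSubgroup Γ}
    (hh : ∀ a ∈ S, ∀ b ∈ S, (g a - g b ∈ V ↔ g' a - g' b ∈ V')) : hq S g V = hq S g' V' := by
  unfold hq
  refine h_congr fun a ha b hb => ?_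
  rw [mk_eq, mk_eq]
  exact hh a ha b hb

/-- `hq` is submodular -/
theorem hq_submod (S : Finset α) (g : α → Γ) {V W X : AddSubgroup Γ} (hV : V ≤ X) (hW : W ≤ X) :
    hq S g (V ⊓ W) + hq S g X ≤ hq S g V + hq S g W := by
  have h1 := submod S (fun a => (QuotientAddGroup.mk (g a) : Γ ⧸ X))
    (fun a => (QuotientAddGroup.mk (g a) : Γ ⧸ V)) (fun a => (QuotientAddGroup.mk (g a) : Γ ⧸ W))
    (fun x _ y _ hxy => mk_eq.2 (hV (mk_eq.1 hxy)))
  have h2 : h S (fun a => ((QuotientAddGroup.mk (g a) : Γ ⧸ V), (QuotientAddGroup.mk (g a) : Γ ⧸ W)))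
      = hq S g (V ⊓ W) := by
    refine h_congr fun a _ b _ => ?_
    rw [Prod.mk.injEq, mk_eq, mk_eq, mk_eq, AddSubgroup.mem_inf]
  have h3 : h S (fun a => ((QuotientAddGroup.mk (g a) : Γ ⧸ X), (QuotientAddGroup.mk (g a) : Γ ⧸ W)))
      = hq S g W := by
    refine h_congr fun a _ b _ => ?_
    rw [Prod.mk.injEq, mk_eq, mk_eq]
    exact ⟨fun h => h.2, fun h => ⟨hW h, h⟩⟩
  have h4 : h S (fun a => (QuotientAddGroup.mk (g a) : Γ ⧸ V)) = hq S g V := rfl
  have h5 : h S (fun a => (QuotientAddGroup.mk (g a) : Γ ⧸ X)) = hq S g X := rfl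
  rw [h2, h3, h4, h5] at h1
  linarith

theorem h_le_log' {β : Type*} [d : DecidableEq β] {S : Finset α} (hS : S.Nonempty) (f : α → β) :
    h S f ≤ Real.log (S.image f).card := by
  have hd : d = (fun a b => Classical.propDecidable (a = b)) := Subsingleton.elim _ _
  subst hd
  exact h_le_log hS f

/-- `hq` is bounded by the number of cosets -/
theorem hq_le_log {S : Finset α} (hS : S.Nonempty) (g : α → Γ) (V : AddSubgroup Γ) (T : Finset Γ)
    (hcov : ∀ a ∈ S, ∃ t ∈ T, g a - t ∈ V) : hq S g V ≤ Real.log T.card := by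
  classical
  refine (h_le_log' hS _).trans ?_
  refine Real.log_le_log (by exact_mod_cast card_pos.2 (hS.image _)) ?_
  have h1 : S.image (fun a => (QuotientAddGroup.mk (g a) : Γ ⧸ V)) ⊆
      T.image (fun t => (QuotientAddGroup.mk t : Γ ⧸ V)) := by
    intro x hx
    obtain ⟨a, ha, rfl⟩ := mem_image.1 hx
    obtain ⟨t, ht, hat⟩ := hcov a ha
    exact mem_image.2 ⟨t, ht, (mk_eq.2 hat).symm⟩
  exact_mod_cast (card_le_card h1).trans card_image_le

open Classical in
/-- the class of `x` -/
theorem fc_eq (S : Finset α) (g : α → Γ) (V : AddSubgroup Γ) (x : α) :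
    fc S (fun a => (QuotientAddGroup.mk (g a) : Γ ⧸ V)) x = (S.filter fun a => g a - g x ∈ V).card := by
  unfold fc cl
  congr 1
  ext a
  simp only [mem_filter, mk_eq]

open Classical in
/-- a popular class -/
theorem hq_popular {S : Finset α} (hS : S.Nonempty) (g : α → Γ) (V : AddSubgroup Γ) :
    ∃ x ∈ S, (S.card : ℝ) ≤ Real.exp (hq S g V) * (S.filter fun a => g a - g x ∈ V).card := by
  have hS0 : (0 : ℝ) < S.card := by exact_mod_cast hS.card_pos
  obtain ⟨x, hx, hx2⟩ : ∃ x ∈ S, Real.log S.card -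
      Real.log (fc S (fun a => (QuotientAddGroup.mk (g a) : Γ ⧸ V)) x) ≤ hq S g V := by
    by_contra hcon
    push Not at hcon
    have h4 := sum_lt_sum_of_nonempty hS hcon
    rw [sum_const, nsmul_eq_mul] at h4
    have h5 : hq S g V * S.card = ∑ x ∈ S, (Real.log S.card -
        Real.log (fc S (fun a => (QuotientAddGroup.mk (g a) : Γ ⧸ V)) x)) := by
      unfold hq h
      field_simp
    linarith
  refine ⟨x, hx, ?_⟩
  have h6 := fc_posR (f := fun a => (QuotientAddGroup.mk (g a) : Γ ⧸ V)) hx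
  rw [← fc_eq]
  have h7 : Real.log S.card ≤ Real.log (Real.exp (hq S g V) *
      fc S (fun a => (QuotientAddGroup.mk (g a) : Γ ⧸ V)) x) := by
    rw [Real.log_mul (Real.exp_pos _).ne' h6.ne', Real.log_exp]
    linarith
  exact (Real.log_le_log_iff hS0 (by positivity)).1 h7

/-- lower bound by the order of `V` -/
theorem log_le_hq {S : Finset α} (hS : S.Nonempty) {g : α → Γ} (hg : Set.InjOn g S)
    (V : AddSubgroup Γ) [Finite V] : Real.log S.card ≤ hq S g V + Real.log (Nat.card V) := by
  classical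
  have hS0 : (0 : ℝ) < S.card := by exact_mod_cast hS.card_pos
  have h1 : ∀ x ∈ S, Real.log S.card - Real.log (Nat.card V) ≤ Real.log S.card -
      Real.log (fc S (fun a => (QuotientAddGroup.mk (g a) : Γ ⧸ V)) x) := by
    intro x hx
    have h2 := fc_posR (f := fun a => (QuotientAddGroup.mk (g a) : Γ ⧸ V)) hx
    have h3 : (fc S (fun a => (QuotientAddGroup.mk (g a) : Γ ⧸ V)) x : ℝ) ≤ Nat.card V := by
      rw [fc_eq]
      have := Fintype.ofFinite V
      rw [Nat.card_eq_fintype_card, ← Finset.card_univ]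
      have : (S.filter fun a => g a - g x ∈ V).card ≤ (Finset.univ : Finset V).card := by
        refine card_le_card_of_injOn (fun a => if ha : g a - g x ∈ V then (⟨g a - g x, ha⟩ : V) else 0)
          (fun a _ => Finset.mem_coe.2 (mem_univ _)) ?_
        intro a ha b hb hab
        rw [mem_coe, mem_filter] at ha hb
        simp only [dif_pos ha.2, dif_pos hb.2, Subtype.mk.injEq] at hab
        exact hg (mem_coe.2 ha.1) (mem_coe.2 hb.1) (sub_left_injective hab)
      exact_mod_cast this
    have h4 := Real.log_le_log h2 h3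
    linarith
  have h5 := sum_le_sum h1
  rw [sum_const, nsmul_eq_mul] at h5
  have h6 : hq S g V * S.card = ∑ x ∈ S, (Real.log S.card -
      Real.log (fc S (fun a => (QuotientAddGroup.mk (g a) : Γ ⧸ V)) x)) := by
    unfold hq h
    field_simp
  rw [← h6, mul_comm] at h5
  have h7 := le_of_mul_le_mul_right h5 hS0
  linarith

/-- `hq` takes finitely many values -/
theorem hq_range_finite (S : Finset α) (g : α → Γ) : (Set.range (hq S g)).Finite := by
  classical
  let Ψ : (S → Fin (S.card + 1)) → ℝ := fun c =>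
    (∑ x ∈ S.attach, (Real.log S.card - Real.log ((c x : ℕ) : ℝ))) / S.card
  refine (Set.finite_range Ψ).subset ?_
  rintro _ ⟨V, rfl⟩
  refine ⟨fun x => ⟨fc S (fun a => (QuotientAddGroup.mk (g a) : Γ ⧸ V)) x,
    Nat.lt_succ_of_le fc_le⟩, ?_⟩
  simp only [Ψ]
  unfold hq h
  congr 1
  exact sum_attach S (fun x => Real.log S.card -
    Real.log ((fc S (fun a => (QuotientAddGroup.mk (g a) : Γ ⧸ V)) x : ℕ) : ℝ))

/-- the number of cosets met by `B`, if `A + B` is small and `A` is covered by few cosets -/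
theorem hq_le_of_add {A : Finset Γ} [DecidableEq Γ] (hA : A.Nonempty) (u : Γ → Γ) {K : ℝ}
    (hK : ((A + A.image u).card : ℝ) ≤ K * A.card) (V : AddSubgroup Γ) (T : Finset Γ)
    (hcov : ∀ a ∈ A, ∃ t ∈ T, a - t ∈ V) : hq A u V ≤ Real.log (K * T.card) := by
  classical
  have hA0 : (0 : ℝ) < A.card := by exact_mod_cast hA.card_pos
  -- a popular coset
  obtain ⟨t, ht, htP⟩ : ∃ t ∈ T, A.card ≤ T.card * (A.filter fun a => a - t ∈ V).card := by
    by_contra hcon
    push Not at hcon
    have hTne : T.Nonempty := by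
      obtain ⟨a, ha⟩ := hA
      obtain ⟨t, ht, -⟩ := hcov a ha
      exact ⟨t, ht⟩
    have h1 : A.card ≤ ∑ t ∈ T, (A.filter fun a => a - t ∈ V).card := by
      have h2 : A ⊆ T.biUnion fun t => A.filter fun a => a - t ∈ V := by
        intro a ha
        obtain ⟨t, ht, hat⟩ := hcov a ha
        exact mem_biUnion.2 ⟨t, ht, mem_filter.2 ⟨ha, hat⟩⟩
      exact (card_le_card h2).trans card_biUnion_le
    have h3 : T.card * A.card ≤ T.card * ∑ t ∈ T, (A.filter fun a => a - t ∈ V).card :=
      Nat.mul_le_mul_left _ h1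
    rw [mul_sum] at h3
    have h4 : ∑ t ∈ T, T.card * (A.filter fun a => a - t ∈ V).card < ∑ t ∈ T, A.card :=
      sum_lt_sum_of_nonempty hTne hcon
    rw [sum_const, smul_eq_mul] at h4
    omega
  set P := A.filter fun a => a - t ∈ V with hP
  have hPne : P.Nonempty := by
    rw [← card_pos]
    by_contra h0
    have h0' : P.card = 0 := by omega
    rw [h0', mul_zero] at htP
    have := hA.card_pos
    omega
  -- representatives of the classes
  set I := A.image (fun a => (QuotientAddGroup.mk (u a) : Γ ⧸ V)) with hI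
  have hrep : ∀ c : Γ ⧸ V, ∃ b : Γ, c ∈ I → b ∈ A.image u ∧ (QuotientAddGroup.mk b : Γ ⧸ V) = c := by
    intro c
    by_cases hc : c ∈ I
    · obtain ⟨a, ha, rfl⟩ := mem_image.1 hc
      exact ⟨u a, fun _ => ⟨mem_image_of_mem _ ha, rfl⟩⟩
    · exact ⟨0, fun h => absurd h hc⟩
  choose b hb using hrep
  have hcard : I.card * P.card ≤ (A + A.image u).card := by
    rw [← card_product]
    refine card_le_card_of_injOn (fun s => s.2 + b s.1) ?_ ?_
    · rintro ⟨c, p⟩ hs
      rw [mem_coe, mem_product] at hs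
      exact mem_coe.2 (add_mem_add (mem_filter.1 hs.2).1 (hb c hs.1).1)
    · rintro ⟨c, p⟩ hs ⟨c', p'⟩ hs' hcc
      rw [mem_coe, mem_product] at hs hs'
      simp only at hs hs' hcc
      have h1 := (mem_filter.1 hs.2).2
      have h2 := (mem_filter.1 hs'.2).2
      have h3 : b c - b c' ∈ V := by
        have : b c - b c' = (p' - t) - (p - t) := by
          have h6 : b c = p' + b c' - p := by rw [← hcc]; abel
          rw [h6]
          abel
        rw [this]
        exact V.sub_mem h2 h1
      have h4 : c = c' := by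
        rw [← (hb c hs.1).2, ← (hb c' hs'.1).2]
        exact mk_eq.2 h3
      subst h4
      have h5 : p = p' := add_right_cancel hcc
      rw [h5]
  have hI0 : 0 < I.card := card_pos.2 (hA.image _)
  have hP0 : (0 : ℝ) < P.card := by exact_mod_cast hPne.card_pos
  refine (h_le_log' hA _).trans ?_
  refine Real.log_le_log (by exact_mod_cast hI0) ?_
  have h1 : (I.card : ℝ) * P.card ≤ (K * T.card) * P.card := by
    calc (I.card : ℝ) * P.card ≤ (A + A.image u).card := by exact_mod_cast hcard
      _ ≤ K * A.card := hK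
      _ ≤ K * (T.card * P.card) := by
        refine mul_le_mul_of_nonneg_left (by exact_mod_cast htP) ?_
        have h2 : (0 : ℝ) ≤ (A + A.image u).card := Nat.cast_nonneg _
        by_contra hneg
        push Not at hneg
        nlinarith
      _ = _ := by ring
  exact le_of_mul_le_mul_right h1 hP0

end Pool.Agent.W5h20.Sym
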