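import Mathlib
import Pool.Agent.W5h20.Sym.Ent
import Pool.Agent.TH404.Tor.Final
import Pool.Agent.R849.IS.Pfr

/-!
# Marton's conjecture with an invariant subgroup
-/

set_option autoImplicit false

namespace Pool.Agent.W5h20.Sym

open Finset Pool.Agent.Y359.PE
open scoped Pointwise

universe u v

section lattice

variable {Γ : Type*} [AddCommGroup Γ]

theorem card_inf_mul_card_sup (V W : AddSubgroup Γ) :
    Nat.card (V ⊓ W : AddSubgroup Γ) * Nat.card (V ⊔ W : AddSubgroup Γ) =
      Nat.card V * Nat.card W := by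
  have h1 : Nat.card W * W.relIndex (V ⊔ W) = Nat.card (V ⊔ W : AddSubgroup Γ) := by
    have := AddSubgroup.relIndex_mul_relIndex (⊥ : AddSubgroup Γ) W (V ⊔ W) bot_le le_sup_right
    rwa [AddSubgroup.relIndex_bot_left, AddSubgroup.relIndex_bot_left] at this
  have h2 : Nat.card (V ⊓ W : AddSubgroup Γ) * (V ⊓ W).relIndex V = Nat.card V := by
    have := AddSubgroup.relIndex_mul_relIndex (⊥ : AddSubgroup Γ) (V ⊓ W) V bot_le inf_le_left
    rwa [AddSubgroup.relIndex_bot_left, AddSubgroup.relIndex_bot_left] at this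
  rw [AddSubgroup.relIndex_sup_right] at h1
  rw [AddSubgroup.inf_relIndex_left] at h2
  rw [← h1, ← h2]
  ring

theorem finite_sup {V W : AddSubgroup Γ} (hV : Finite V) (hW : Finite W) :
    Finite (V ⊔ W : AddSubgroup Γ) := by
  have h1 : ((V ⊔ W : AddSubgroup Γ) : Set Γ) ⊆ Set.image2 (fun a b => a + b) V W := by
    intro x hx
    obtain ⟨y, hy, z, hz, rfl⟩ := AddSubgroup.mem_sup.1 hx
    exact ⟨y, hy, z, hz, rfl⟩
  have h2 : (Set.image2 (fun a b => a + b) (V : Set Γ) (W : Set Γ)).Finite :=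
    Set.Finite.image2 _ (Set.toFinite _) (Set.toFinite _)
  exact (h2.subset h1).to_subtype

theorem finite_inf {V W : AddSubgroup Γ} (hV : Finite V) : Finite (V ⊓ W : AddSubgroup Γ) := by
  have h1 : ((V ⊓ W : AddSubgroup Γ) : Set Γ) ⊆ V := fun x hx => hx.1
  exact ((Set.toFinite (V : Set Γ)).subset h1).to_subtype

variable {G : Type*} [Group G] [DistribMulAction G Γ]

theorem card_smul (g : G) (V : AddSubgroup Γ) : Nat.card (g • V : AddSubgroup Γ) = Nat.card V := by
  have h1 : ((g • V : AddSubgroup Γ) : Set Γ) = (fun x => g • x) '' (V : Set Γ) :=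
    AddSubgroup.coe_pointwise_smul g V
  have h2 := Set.ncard_image_of_injective (V : Set Γ) (MulAction.injective g)
  rw [← h1] at h2
  exact h2

theorem finite_smul (g : G) {V : AddSubgroup Γ} (hV : Finite V) :
    Finite (g • V : AddSubgroup Γ) := by
  have h1 : ((g • V : AddSubgroup Γ) : Set Γ) = (fun x => g • x) '' (V : Set Γ) :=
    AddSubgroup.coe_pointwise_smul g V
  have h2 : ((g • V : AddSubgroup Γ) : Set Γ).Finite := by
    rw [h1]
    exact (Set.toFinite (V : Set Γ)).image _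
  exact h2.to_subtype

theorem hq_smul {α : Type*} (S : Finset α) (u : α → Γ) (g k : G) (V : AddSubgroup Γ) :
    hq S (fun a => g • u a) (k • V) = hq S (fun a => (k⁻¹ * g) • u a) V := by
  refine hq_congr fun a _ b _ => ?_
  rw [AddSubgroup.mem_pointwise_smul_iff_inv_smul_mem, smul_sub, smul_smul, smul_smul]

variable [DecidableEq Γ]

variable (G) in
/-- The sets `g • A` are translates of finitely many sets. -/
def FinTrans (A : Finset Γ) : Prop :=
  ∃ 𝒮 : Finset (Finset Γ), ∀ g : G, ∃ S ∈ 𝒮, ∃ c : Γ, g • A = S.image (fun s => c + s)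

theorem h_image {β : Type*} (S : Finset Γ) (u : Γ → Γ) (hu : Function.Injective u)
    (k : Γ → β) : h (S.image u) k = h S (fun a => k (u a)) := by
  classical
  unfold h
  rw [card_image_of_injective _ hu, sum_image (fun a _ b _ hab => hu hab)]
  congr 1
  refine sum_congr rfl fun x _ => ?_
  have : fc (S.image u) k (u x) = fc S (fun a => k (u a)) x := by
    unfold fc cl
    rw [filter_image, card_image_of_injective _ hu]
  rw [this]

theorem hq_translate {A S : Finset Γ} {g : G} {c : Γ}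
    (hAS : g • A = S.image (fun s => c + s)) (V : AddSubgroup Γ) :
    hq A (fun a => g • a) V = hq S (fun a => a) V := by
  have h1 := h_image A (fun a => g • a) (MulAction.injective g)
    (fun a => (QuotientAddGroup.mk a : Γ ⧸ V))
  have h2 := h_image S (fun s => c + s) (add_right_injective c)
    (fun a => (QuotientAddGroup.mk a : Γ ⧸ V))
  have h0 : A.image (fun a => g • a) = g • A := rfl
  rw [h0, hAS, h2] at h1
  have h3 : hq S (fun a => c + a) V = hq S (fun a => a) V := by
    refine hq_congr fun a _ b _ => ?_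
    rw [add_sub_add_left_eq_sub]
  exact h1.symm.trans h3

variable (G) in
theorem finTrans_of_finite [Finite G] (A : Finset Γ) : FinTrans G A := by
  classical
  have := Fintype.ofFinite G
  refine ⟨(Finset.univ : Finset G).image (fun g => g • A), ?_⟩
  intro g
  refine ⟨g • A, mem_image.2 ⟨g, mem_univ _, rfl⟩, 0, ?_⟩
  simp

/-- the family of the entropies modulo `V` of the sets `φ(A)` is finite -/
theorem family_finite {A : Finset Γ} (hG : FinTrans G A) :
    (Set.range fun g : G => fun V : AddSubgroup Γ => hq A (fun a => g • a) V).Finite := by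
  obtain ⟨𝒮, h𝒮⟩ := hG
  refine ((𝒮 : Set (Finset Γ)).toFinite.image
    (fun S => fun V : AddSubgroup Γ => hq S (fun a => a) V)).subset ?_
  rintro _ ⟨g, rfl⟩
  obtain ⟨S, hS, c, hc⟩ := h𝒮 g
  refine ⟨S, hS, ?_⟩
  funext V
  exact (hq_translate hc V).symm

end lattice

/-- covering by cosets -/
theorem cover_of_hq {Γ : Type u} [AddCommGroup Γ] [DecidableEq Γ] {A : Finset Γ} (hA : A.Nonempty)
    {K : ℝ} (hK : ((A + A).card : ℝ) ≤ K * A.card) (hK0 : 0 ≤ K) (V : AddSubgroup Γ) :
    ∃ T ⊆ A, (T.card : ℝ) ≤ K * Real.exp (hq A (fun a => a) V) ∧ ∀ a ∈ A, ∃ t ∈ T, a - t ∈ V := by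
  classical
  obtain ⟨g, hg, hg2⟩ := hq_popular hA (fun a => a) V
  obtain ⟨T, hTA, hT, hcov⟩ := Pool.Agent.R849.IS.cosets V (g := g) hA hK hK0
    (M := Real.exp (hq A (fun a => a) V)) (by
      rw [Pool.Agent.R849.IS.card_sec]
      convert hg2)
  refine ⟨T, hTA, hT, fun a ha => ?_⟩
  obtain ⟨t, ht, x, -, y, -, rfl⟩ := hcov a ha
  refine ⟨t, ht, ?_⟩
  rw [add_sub_cancel_left]
  exact (x - y).2

theorem one_le_of {Γ : Type*} [AddCommGroup Γ] [DecidableEq Γ] {A B : Finset Γ} (hA : A.Nonempty)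
    (hB : B.Nonempty) {K : ℝ} (hK : ((A + B).card : ℝ) ≤ K * A.card) : 1 ≤ K := by
  have hA0 : (0 : ℝ) < A.card := by exact_mod_cast hA.card_pos
  have h1 : (A.card : ℝ) ≤ (A + B).card := by
    exact_mod_cast card_le_card_add_right hB
  nlinarith

theorem finite_log_le (M : ℝ) : {n : ℕ | (1 / 2 : ℝ) * Real.log n ≤ M}.Finite := by
  refine (Set.finite_Iic (⌈Real.exp (2 * M)⌉₊)).subset ?_
  intro n hn
  have hn' : (1 / 2 : ℝ) * Real.log n ≤ M := hn
  rcases Nat.eq_zero_or_pos n with h0 | hpos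
  · rw [h0]; exact Nat.zero_le _
  · have h1 : Real.log n ≤ 2 * M := by linarith
    have h2 : (n : ℝ) ≤ Real.exp (2 * M) := by
      rw [← Real.exp_log (show (0 : ℝ) < n by exact_mod_cast hpos)]
      exact Real.exp_le_exp.2 h1
    show n ≤ _
    exact_mod_cast h2.trans (Nat.le_ceil _)

/-- **Marton's conjecture for bounded exponent, with an invariant subgroup.** -/
theorem marton_inv {Γ : Type u} [AddCommGroup Γ] [DecidableEq Γ] {G : Type v} [Group G]
    [DistribMulAction G Γ] {m : ℕ} (hm : 0 < m)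
    (hΓ : ∀ x : Γ, m • x = 0) {A : Finset Γ} (hA : A.Nonempty)
    (hG : FinTrans G A) {K : ℝ} {E : ℕ} (hE : E = 41005 * (Nat.log 2 m + 1))
    (hK : ∀ g : G, ((A + g • A).card : ℝ) ≤ K * A.card) :
    ∃ (H : AddSubgroup Γ) (T : Finset Γ), Finite H ∧ (∀ g : G, g • H = H) ∧
      (Nat.card H : ℝ) ≤ (2 * K) ^ (2 * E + 2) * A.card ∧ T ⊆ A ∧
      (T.card : ℝ) ≤ (2 * K) ^ (2 * E + 3) ∧ ∀ a ∈ A, ∃ t ∈ T, a - t ∈ H := by
  classical
  have hKid : ((A + A).card : ℝ) ≤ K * A.card := by
    have := hK 1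
    rwa [one_smul] at this
  have hK1 : 1 ≤ K := one_le_of hA hA hKid
  have hK0 : 0 < K := by linarith
  have hA0 : (0 : ℝ) < A.card := by exact_mod_cast hA.card_pos
  obtain ⟨H0, T0, hH0fin, hH0card, hT0, hcov0⟩ :=
    Pool.Agent.TH404.Tor.upper m hm hΓ K A hA hKid
  rw [← hE] at hT0
  obtain ⟨ℓ, hℓ⟩ : ∃ ℓ, ℓ = Real.log (2 * K) := ⟨_, rfl⟩
  have hℓ0 : 0 ≤ ℓ := by rw [hℓ]; exact Real.log_nonneg (by linarith)
  have hH0pos : (0 : ℝ) < Nat.card H0 := by exact_mod_cast Nat.card_pos
  have hT0pos : (0 : ℝ) < T0.card := by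
    obtain ⟨a, ha⟩ := hA
    obtain ⟨t, ht, -⟩ := hcov0 a ha
    exact_mod_cast card_pos.2 ⟨t, ht⟩
  obtain ⟨V, hVfin, hVfix, hV⟩ := core (L := AddSubgroup Γ) (G := G) {V | Finite V}
    (fun V hV W _ => finite_inf hV) (fun V hV W hW => finite_sup hV hW)
    (fun g V => g • V) (fun g V hV => finite_smul g hV)
    (fun g V => hq A (fun a => g • a) V)
    (fun g k V => hq_smul A (fun a => a) g k V)
    (fun g V => hq_nonneg _ _ _)
    (fun g => hq_range_finite A _)
    (fun g V _ W _ => hq_submod A _ le_sup_left le_sup_right)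
    (family_finite hG)
    (fun V => Nat.card V)
    (fun V hV W hW hVW => by
      have h1 : Finite W := hW
      exact Set.ncard_lt_ncard (SetLike.coe_ssubset_coe.2 hVW) (Set.toFinite _))
    (fun g V => card_smul g V)
    (fun n => (1 / 2 : ℝ) * Real.log n) finite_log_le
    (fun V hV W hW => by
      have h1 : Finite V := hV
      have h2 : Finite W := hW
      have h3 : Finite (V ⊓ W : AddSubgroup Γ) := finite_inf hV
      have h4 : Finite (V ⊔ W : AddSubgroup Γ) := finite_sup hV hW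
      have e1 : (0 : ℝ) < Nat.card V := by exact_mod_cast Nat.card_pos
      have e2 : (0 : ℝ) < Nat.card W := by exact_mod_cast Nat.card_pos
      have e3 : (0 : ℝ) < Nat.card (V ⊓ W : AddSubgroup Γ) := by exact_mod_cast Nat.card_pos
      have e4 : (0 : ℝ) < Nat.card (V ⊔ W : AddSubgroup Γ) := by exact_mod_cast Nat.card_pos
      have h5 : (Nat.card (V ⊓ W : AddSubgroup Γ) : ℝ) * Nat.card (V ⊔ W : AddSubgroup Γ) =
          Nat.card V * Nat.card W := by exact_mod_cast card_inf_mul_card_sup V W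
      have h6 := congrArg Real.log h5
      rw [Real.log_mul e3.ne' e4.ne', Real.log_mul e1.ne' e2.ne'] at h6
      linarith)
    H0 hH0fin ((E + 1) * ℓ) (fun g => by
      have h1 := hq_le_of_add hA (fun a => g • a) (hK g) H0 T0 hcov0
      refine h1.trans ?_
      have h2 : K * T0.card ≤ (2 * K) ^ (E + 1) := by
        rw [pow_succ, mul_comm]
        exact mul_le_mul hT0 (by linarith) hK0.le (by positivity)
      have h3 := Real.log_le_log (by positivity) h2
      rw [Real.log_pow, ← hℓ] at h3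
      push_cast at h3
      exact h3)
  have hVfin' : Finite V := hVfin
  have hVpos : (0 : ℝ) < Nat.card V := by exact_mod_cast Nat.card_pos
  -- the bounds
  have hone : hq A (fun a => (1 : G) • a) V = hq A (fun a => a) V := by
    simp only [one_smul]
  rw [hone] at hV
  have h1 := log_le_hq (S := A) hA (g := fun a : Γ => a) (fun a _ b _ hab => hab) V
  have h2 : Real.log (Nat.card H0) ≤ Real.log A.card :=
    Real.log_le_log hH0pos (by exact_mod_cast hH0card)
  have h3 := hq_nonneg A (fun a : Γ => a) V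
  have hq1 : hq A (fun a => a) V ≤ (2 * E + 2 : ℕ) * ℓ := by
    push_cast
    linarith
  have hq2 : Real.log (Nat.card V) ≤ (2 * E + 2 : ℕ) * ℓ + Real.log A.card := by
    push_cast
    linarith
  obtain ⟨T, hTA, hT, hcov⟩ := cover_of_hq hA hKid hK0.le V
  have hexp : ∀ n : ℕ, Real.exp (n * ℓ) = (2 * K) ^ n := by
    intro n
    rw [Real.exp_nat_mul, hℓ, Real.exp_log (by linarith)]
  refine ⟨V, T, hVfin', hVfix, ?_, hTA, ?_, hcov⟩
  · rw [← Real.exp_log hVpos]
    calc Real.exp (Real.log (Nat.card V)) ≤ Real.exp ((2 * E + 2 : ℕ) * ℓ + Real.log A.card) :=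
          Real.exp_le_exp.2 hq2
      _ = (2 * K) ^ (2 * E + 2) * A.card := by
          rw [Real.exp_add, hexp, Real.exp_log hA0]
  · calc (T.card : ℝ) ≤ K * Real.exp (hq A (fun a => a) V) := hT
      _ ≤ (2 * K) * Real.exp ((2 * E + 2 : ℕ) * ℓ) :=
        mul_le_mul (by linarith) (Real.exp_le_exp.2 hq1) (Real.exp_pos _).le (by linarith)
      _ = (2 * K) ^ (2 * E + 3) := by
        rw [hexp, ← pow_succ']

end Pool.Agent.W5h20.Sym
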