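import Mathlib
import Pool.Agent.W5h20.Sym.Tors
import Pool.Agent.H137R2.Weak.Final

/-!
# Invariant subgroups of small rank
-/

set_option autoImplicit false

namespace Pool.Agent.W5h20.Sym

open Finset Pool.Agent.Y359.PE
open scoped Pointwise TensorProduct

universe u v

section tensor

variable (Γ : Type u) [AddCommGroup Γ]

/-- the map from `Γ` to `ℚ ⊗ Γ` -/
noncomputable def io : Γ →ₗ[ℤ] (ℚ ⊗[ℤ] Γ) := TensorProduct.mk ℤ ℚ Γ 1

instance io_loc : IsLocalizedModule (nonZeroDivisors ℤ) (io Γ) :=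
  (isLocalizedModule_iff_isBaseChange (nonZeroDivisors ℤ) ℚ _).2 (TensorProduct.isBaseChange ℤ Γ ℚ)

variable {Γ}

theorem io_eq_zero {x : Γ} (hx : io Γ x = 0) : ∃ n : ℕ, 0 < n ∧ n • x = 0 := by
  obtain ⟨c, hc⟩ := (IsLocalizedModule.eq_zero_iff (nonZeroDivisors ℤ) (io Γ)).1 hx
  have hc0 : (c : ℤ) ≠ 0 := nonZeroDivisors.ne_zero c.2
  refine ⟨(c : ℤ).natAbs, Int.natAbs_pos.2 hc0, ?_⟩
  have h1 : (c : ℤ) • x = 0 := hc
  rcases Int.natAbs_eq (c : ℤ) with h | h
  · rw [h] at h1
    rw [← natCast_zsmul]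
    simpa using h1
  · rw [h] at h1
    rw [← natCast_zsmul]
    rw [neg_smul, neg_eq_zero] at h1
    simpa using h1

theorem io_of_torsion {x : Γ} {n : ℕ} (hn : 0 < n) (hx : n • x = 0) : io Γ x = 0 := by
  have h1 : (n : ℚ) • io Γ x = 0 := by
    rw [Nat.cast_smul_eq_nsmul, ← map_nsmul, hx, map_zero]
  rcases smul_eq_zero.1 h1 with h | h
  · exfalso
    have : (n : ℚ) ≠ 0 := by exact_mod_cast hn.ne'
    exact this h
  · exact h

theorem io_surj (e : ℚ ⊗[ℤ] Γ) : ∃ (x : Γ) (n : ℕ), 0 < n ∧ (n : ℚ) • e = io Γ x := by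
  obtain ⟨⟨x, c⟩, hc⟩ := IsLocalizedModule.surj (nonZeroDivisors ℤ) (io Γ) e
  have hc0 : (c : ℤ) ≠ 0 := nonZeroDivisors.ne_zero c.2
  have h1 : ((c : ℤ) : ℚ) • e = io Γ x := by
    rw [Int.cast_smul_eq_zsmul]
    exact hc
  rcases Int.natAbs_eq (c : ℤ) with h | h
  · refine ⟨x, (c : ℤ).natAbs, Int.natAbs_pos.2 hc0, ?_⟩
    rw [← h1]
    congr 1
    rw [← Int.cast_natCast (R := ℚ), ← h]
  · refine ⟨-x, (c : ℤ).natAbs, Int.natAbs_pos.2 hc0, ?_⟩
    rw [map_neg, ← h1, ← neg_smul]
    congr 1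
    have h2 : ((c : ℤ).natAbs : ℤ) = -(c : ℤ) := by omega
    rw [← Int.cast_natCast (R := ℚ), h2, Int.cast_neg]

variable {G : Type v} [Group G] [DistribMulAction G Γ]

/-- the action on `ℚ ⊗ Γ` -/
noncomputable def rho (g : G) : (ℚ ⊗[ℤ] Γ) →ₗ[ℚ] (ℚ ⊗[ℤ] Γ) :=
  ((DistribSMul.toAddMonoidHom Γ g).toIntLinearMap).baseChange ℚ

theorem rho_io (g : G) (x : Γ) : rho g (io Γ x) = io Γ (g • x) := by
  show (LinearMap.baseChange ℚ (DistribSMul.toAddMonoidHom Γ g).toIntLinearMap)
    ((1 : ℚ) ⊗ₜ[ℤ] x) = (1 : ℚ) ⊗ₜ[ℤ] (g • x)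
  rw [LinearMap.baseChange_tmul]
  rfl

theorem rho_comp (g k : G) (e : ℚ ⊗[ℤ] Γ) : rho g (rho k e) = rho (g * k) e := by
  obtain ⟨x, n, hn, hx⟩ := io_surj e
  have hn0 : (n : ℚ) ≠ 0 := by exact_mod_cast hn.ne'
  have he : e = (n : ℚ)⁻¹ • io Γ x := by
    rw [← hx, smul_smul, inv_mul_cancel₀ hn0, one_smul]
  rw [he, map_smul, map_smul, map_smul, rho_io, rho_io, rho_io, mul_smul]

theorem rho_one (e : ℚ ⊗[ℤ] Γ) : rho (1 : G) e = e := by
  obtain ⟨x, n, hn, hx⟩ := io_surj e
  have hn0 : (n : ℚ) ≠ 0 := by exact_mod_cast hn.ne'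
  have he : e = (n : ℚ)⁻¹ • io Γ x := by
    rw [← hx, smul_smul, inv_mul_cancel₀ hn0, one_smul]
  rw [he, map_smul, rho_io, one_smul]

/-- the action as a linear equivalence -/
noncomputable def rhoe (g : G) : (ℚ ⊗[ℤ] Γ) ≃ₗ[ℚ] (ℚ ⊗[ℤ] Γ) :=
  LinearEquiv.ofLinear (rho g) (rho g⁻¹)
    (LinearMap.ext fun x => by
      rw [LinearMap.comp_apply, LinearMap.id_apply, rho_comp, mul_inv_cancel, rho_one])
    (LinearMap.ext fun x => by
      rw [LinearMap.comp_apply, LinearMap.id_apply, rho_comp, inv_mul_cancel, rho_one])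

theorem mem_map_rhoe {g : G} {V : Submodule ℚ (ℚ ⊗[ℤ] Γ)} {e : ℚ ⊗[ℤ] Γ} :
    e ∈ V.map (rhoe g).toLinearMap ↔ rho g⁻¹ e ∈ V := by
  rw [Submodule.mem_map_equiv]
  rfl

/-- elements of `Γ` in a subspace -/
noncomputable def pull (V : Submodule ℚ (ℚ ⊗[ℤ] Γ)) : AddSubgroup Γ :=
  V.toAddSubgroup.comap (io Γ).toAddMonoidHom

theorem mem_pull {V : Submodule ℚ (ℚ ⊗[ℤ] Γ)} {x : Γ} : x ∈ pull V ↔ io Γ x ∈ V := Iff.rfl

theorem pull_pure {V : Submodule ℚ (ℚ ⊗[ℤ] Γ)} {x : Γ} {n : ℕ} (hn : 0 < n) (hx : n • x ∈ pull V) :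
    x ∈ pull V := by
  rw [mem_pull, map_nsmul, ← Nat.cast_smul_eq_nsmul ℚ] at hx
  have hn0 : (n : ℚ) ≠ 0 := by exact_mod_cast hn.ne'
  exact (V.smul_mem_iff hn0).1 hx

/-- a finite-dimensional subspace gives a subgroup of finite rank -/
theorem pull_gen (V : Submodule ℚ (ℚ ⊗[ℤ] Γ)) [FiniteDimensional ℚ V] [DecidableEq Γ] :
    ∃ S : Finset Γ, S.card ≤ Module.finrank ℚ V ∧ (∀ s ∈ S, s ∈ pull V) ∧
      ∀ x ∈ pull V, ∃ n : ℕ, 0 < n ∧ n • x ∈ AddSubgroup.closure (S : Set Γ) := by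
  classical
  let b := Module.finBasis ℚ V
  have hs : ∀ i, ∃ (x : Γ) (n : ℕ), 0 < n ∧ (n : ℚ) • (b i : ℚ ⊗[ℤ] Γ) = io Γ x := fun i => io_surj _
  choose s n hn hsn using hs
  refine ⟨Finset.univ.image s, ?_, ?_, ?_⟩
  · refine card_image_le.trans ?_
    rw [card_univ, Fintype.card_fin]
  · intro x hx
    obtain ⟨i, -, rfl⟩ := mem_image.1 hx
    rw [mem_pull, ← hsn]
    exact V.smul_mem _ (b i).2
  · intro x hx
    let c : Fin (Module.finrank ℚ V) → ℚ := fun i => b.repr ⟨io Γ x, hx⟩ i / n i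
    have hc : io Γ x = ∑ i, c i • io Γ (s i) := by
      have h1 := congrArg Subtype.val (b.sum_repr ⟨io Γ x, hx⟩)
      simp only [Submodule.coe_sum, Submodule.coe_smul] at h1
      rw [← h1]
      refine sum_congr rfl fun i _ => ?_
      rw [← hsn, smul_smul]
      congr 1
      have hn0 : (n i : ℚ) ≠ 0 := by exact_mod_cast (hn i).ne'
      simp only [c]
      field_simp
    -- the common denominator
    set N : ℕ := ∏ i, (c i).den with hN
    have hNpos : 0 < N := Finset.prod_pos fun i _ => (c i).pos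
    have hz : ∀ i, ∃ z : ℤ, (N : ℚ) * c i = z := by
      intro i
      refine ⟨(∏ j ∈ Finset.univ.erase i, (c j).den : ℕ) * (c i).num, ?_⟩
      have h2 : N = (∏ j ∈ Finset.univ.erase i, (c j).den) * (c i).den := by
        rw [hN, Finset.prod_erase_mul _ _ (mem_univ i)]
      rw [h2]
      push_cast
      rw [mul_assoc, mul_comm ((c i).den : ℚ), Rat.mul_den_eq_num]
    choose z hz using hz
    have h3 : io Γ (N • x - ∑ i, z i • s i) = 0 := by
      rw [map_sub, map_nsmul, map_sum, sub_eq_zero, ← Nat.cast_smul_eq_nsmul ℚ, hc, smul_sum]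
      refine sum_congr rfl fun i _ => ?_
      rw [smul_smul, hz, map_zsmul, Int.cast_smul_eq_zsmul]
    obtain ⟨M, hM, hM0⟩ := io_eq_zero h3
    refine ⟨M * N, Nat.mul_pos hM hNpos, ?_⟩
    have h4 : (M * N) • x = M • ∑ i, z i • s i := by
      rw [smul_sub, sub_eq_zero] at hM0
      rw [← hM0, smul_smul]
    rw [h4]
    refine AddSubgroup.nsmul_mem _ (AddSubgroup.sum_mem _ fun i _ => AddSubgroup.zsmul_mem _ ?_ _) _
    exact AddSubgroup.subset_closure (mem_coe.2 (mem_image_of_mem _ (mem_univ i)))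

end tensor

/-- sets which are not in a coset of the torsion subgroup -/
theorem three_halves {Γ : Type u} [AddCommGroup Γ] [DecidableEq Γ] {A : Finset Γ} {a b : Γ}
    (ha : a ∈ A) (hb : b ∈ A) (hab : io Γ a ≠ io Γ b) :
    (3 : ℝ) * A.card ≤ 2 * (A + A).card := by
  classical
  obtain ⟨f, hf⟩ : ∃ f : Module.Dual ℚ (ℚ ⊗[ℤ] Γ), f (io Γ a - io Γ b) ≠ 0 := by
    by_contra hcon
    push Not at hcon
    exact hab (sub_eq_zero.1 ((Module.forall_dual_apply_eq_zero_iff ℚ _).1 hcon))
  let u : Γ → ℚ := fun x => f (io Γ x)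
  have hu : ∀ x y, u (x + y) = u x + u y := by
    intro x y
    simp only [u, map_add]
  have hab' : u a ≠ u b := by
    intro h
    apply hf
    rw [map_sub]
    exact sub_eq_zero.2 h
  obtain ⟨p, hp, hpmin⟩ := A.exists_min_image u ⟨a, ha⟩
  obtain ⟨q, hq, hqmax⟩ := A.exists_max_image u ⟨a, ha⟩
  have hpq : u p < u q := by
    rcases lt_or_gt_of_ne hab' with h | h
    · exact (hpmin a ha).trans_lt (h.trans_le (hqmax b hb))
    · exact (hpmin b hb).trans_lt (h.trans_le (hqmax a ha))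
  set P := A.filter fun x => u x = u p with hP
  set Q := A.filter fun x => u x = u q with hQ
  have hPQ : P.card + Q.card ≤ A.card := by
    rw [← card_union_of_disjoint]
    · exact card_le_card (union_subset (filter_subset _ _) (filter_subset _ _))
    · rw [disjoint_left]
      intro x hx hx'
      have h1 := (mem_filter.1 hx).2
      have h2 := (mem_filter.1 hx').2
      rw [h1] at h2
      exact hpq.ne h2
  have key : ∀ R ⊆ A, (∀ x ∈ A.image (fun x => x + p), x ∈ A.image (fun x => x + q) →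
      x ∈ R.image (fun x => x + q)) ∨ (∀ x ∈ A.image (fun x => x + p), x ∈ A.image (fun x => x + q) →
      x ∈ R.image (fun x => x + p)) → 2 * A.card ≤ (A + A).card + R.card := by
    intro R hR hor
    have h1 : A.image (fun x => x + p) ∪ A.image (fun x => x + q) ⊆ A + A := by
      apply union_subset
      · intro x hx
        obtain ⟨y, hy, rfl⟩ := mem_image.1 hx
        exact add_mem_add hy hp
      · intro x hx
        obtain ⟨y, hy, rfl⟩ := mem_image.1 hx
        exact add_mem_add hy hq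
    have h2 := card_union_add_card_inter (A.image (fun x => x + p)) (A.image (fun x => x + q))
    rw [card_image_of_injective _ (add_left_injective p),
      card_image_of_injective _ (add_left_injective q)] at h2
    have h3 := card_le_card h1
    have h4 : (A.image (fun x => x + p) ∩ A.image (fun x => x + q)).card ≤ R.card := by
      rcases hor with h | h
      · rw [← card_image_of_injective R (add_left_injective q)]
        exact card_le_card fun x hx => h x (mem_inter.1 hx).1 (mem_inter.1 hx).2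
      · rw [← card_image_of_injective R (add_left_injective p)]
        exact card_le_card fun x hx => h x (mem_inter.1 hx).1 (mem_inter.1 hx).2
    omega
  have hval : ∀ y ∈ A, ∀ z ∈ A, y + p = z + q → u y = u q ∧ u z = u p := by
    intro y hy z hz hyz
    have h1 : u y + u p = u z + u q := by rw [← hu, ← hu, hyz]
    have h2 := hqmax y hy
    have h3 := hpmin z hz
    constructor <;> linarith
  have hkP : 2 * A.card ≤ (A + A).card + P.card := by
    refine key P (filter_subset _ _) (Or.inl ?_)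
    intro x hx hx'
    obtain ⟨y, hy, rfl⟩ := mem_image.1 hx
    obtain ⟨z, hz, hyz⟩ := mem_image.1 hx'
    rw [← hyz]
    exact mem_image_of_mem _ (mem_filter.2 ⟨hz, (hval y hy z hz hyz.symm).2⟩)
  have hkQ : 2 * A.card ≤ (A + A).card + Q.card := by
    refine key Q (filter_subset _ _) (Or.inr ?_)
    intro x hx hx'
    obtain ⟨y, hy, rfl⟩ := mem_image.1 hx
    obtain ⟨z, hz, hyz⟩ := mem_image.1 hx'
    exact mem_image_of_mem _ (mem_filter.2 ⟨hy, (hval y hy z hz hyz.symm).1⟩)
  have h5 : 3 * A.card ≤ 2 * (A + A).card := by omega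
  exact_mod_cast h5


theorem weak_marton' {Γ : Type u} [AddCommGroup Γ] [d : DecidableEq Γ] {K : ℝ} {A : Finset Γ}
    (hA : A.Nonempty) (hK : ((A + A).card : ℝ) ≤ K * A.card) :
    ∃ (P : AddSubgroup Γ) (S T : Finset Γ), Finite P ∧ Nat.card P ≤ A.card ∧
      (((A : Set Γ) + (P : Set Γ)).ncard : ℝ) ≤ 2 * K ^ 370 * A.card ∧
      (S.card : ℝ) ≤ 480 * Real.log K + 1 ∧ T ⊆ A ∧ (T.card : ℝ) ≤ K ^ 185 ∧
      ∀ a ∈ A, ∃ t ∈ T, ∃ o : Γ, (∃ m : ℕ, Odd m ∧ m • o = 0) ∧
        a - t - o ∈ P ⊔ AddSubgroup.closure (S : Set Γ) := by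
  have hd : d = (fun a b => Classical.propDecidable (a = b)) := Subsingleton.elim _ _
  subst hd
  exact H137.Weak.weak_marton hA hK

/-- **Invariant subgroups of small rank.** -/
theorem rank_inv {Γ : Type u} [AddCommGroup Γ] [DecidableEq Γ] {G : Type v} [Group G]
    [DistribMulAction G Γ] {A : Finset Γ} (hA : A.Nonempty) (hG : FinTrans G A) {K : ℝ}
    (hK : ∀ g : G, ((A + g • A).card : ℝ) ≤ K * A.card) :
    ∃ (W : AddSubgroup Γ) (S T : Finset Γ), (∀ g : G, g • W = W) ∧
      (∀ (x : Γ) (n : ℕ), 0 < n → n • x ∈ W → x ∈ W) ∧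
      (S.card : ℝ) ≤ 700 * Real.log K ∧ (∀ s ∈ S, s ∈ W) ∧
      (∀ x ∈ W, ∃ n : ℕ, 0 < n ∧ n • x ∈ AddSubgroup.closure (S : Set Γ)) ∧
      T ⊆ A ∧ (T.card : ℝ) ≤ K ^ 700 ∧ ∀ a ∈ A, ∃ t ∈ T, a - t ∈ W := by
  classical
  have hKid : ((A + A).card : ℝ) ≤ K * A.card := by
    have := hK 1
    rwa [one_smul] at this
  have hK1 : 1 ≤ K := one_le_of hA hA hKid
  have hK0 : 0 < K := by linarith
  have hA0 : (0 : ℝ) < A.card := by exact_mod_cast hA.card_pos
  have hlog0 : 0 ≤ Real.log K := Real.log_nonneg hK1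
  have hbotfix : ∀ g : G, g • pull (⊥ : Submodule ℚ (ℚ ⊗[ℤ] Γ)) = pull (⊥ : Submodule ℚ (ℚ ⊗[ℤ] Γ)) := by
    intro g
    ext x
    rw [AddSubgroup.mem_pointwise_smul_iff_inv_smul_mem, mem_pull, mem_pull, ← rho_io,
      Submodule.mem_bot, Submodule.mem_bot]
    constructor
    · intro h
      have h1 := congrArg (rho g) h
      rwa [rho_comp, mul_inv_cancel, rho_one, map_zero] at h1
    · intro h
      rw [h, map_zero]
  by_cases hone : ∀ a ∈ A, ∀ b ∈ A, io Γ a = io Γ b
  · -- one coset of the torsion subgroup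
    obtain ⟨a0, ha0⟩ := hA
    obtain ⟨S, hS1, hS2, hS3⟩ := pull_gen (⊥ : Submodule ℚ (ℚ ⊗[ℤ] Γ))
    refine ⟨pull ⊥, S, {a0}, hbotfix, fun x n hn hx => pull_pure hn hx, ?_, hS2, hS3,
      singleton_subset_iff.2 ha0, ?_, ?_⟩
    · rw [finrank_bot] at hS1
      have : S.card = 0 := by omega
      rw [this, Nat.cast_zero]
      positivity
    · rw [card_singleton, Nat.cast_one]
      exact one_le_pow₀ hK1
    · intro a ha
      refine ⟨a0, mem_singleton_self _, ?_⟩
      rw [mem_pull, map_sub, hone a ha a0 ha0, sub_self]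
      exact Submodule.zero_mem _
  · push Not at hone
    obtain ⟨a, ha, b, hb, hab⟩ := hone
    -- a lower bound for K
    have hK32 : (3 / 2 : ℝ) ≤ K := by
      have h1 := three_halves ha hb hab
      by_contra hcon
      push Not at hcon
      have h2 : K * A.card < 3 / 2 * A.card := mul_lt_mul_of_pos_right hcon hA0
      linarith
    have hlogK : (0.4 : ℝ) ≤ Real.log K := by
      have h1 : Real.log (3 / 2) ≤ Real.log K := Real.log_le_log (by norm_num) hK32
      have h2 : (0.4 : ℝ) ≤ Real.log (3 / 2) := by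
        rw [Real.le_log_iff_exp_le (by norm_num)]
        have h3 : Real.exp 0.4 = (Real.exp 1) ^ (2 / 5 : ℝ) := by
          rw [← Real.exp_mul]; norm_num
        rw [h3]
        have h4 : Real.exp 1 ≤ 2.7182818286 := Real.exp_one_lt_d9.le
        have h5 : (Real.exp 1) ^ (2 / 5 : ℝ) ≤ (2.7182818286 : ℝ) ^ (2 / 5 : ℝ) :=
          Real.rpow_le_rpow (Real.exp_pos _).le h4 (by norm_num)
        refine h5.trans ?_
        have h6 : ((3 / 2 : ℝ)) = ((3 / 2 : ℝ) ^ (5 / 2 : ℝ)) ^ (2 / 5 : ℝ) := by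
          rw [← Real.rpow_mul (by norm_num)]; norm_num
        rw [h6]
        refine Real.rpow_le_rpow (by norm_num) ?_ (by norm_num)
        have h7 : ((3 / 2 : ℝ) ^ (5 / 2 : ℝ)) = (3 / 2) ^ 2 * Real.sqrt (3 / 2) := by
          rw [Real.sqrt_eq_rpow, ← Real.rpow_natCast, ← Real.rpow_add (by norm_num)]
          norm_num
        rw [h7]
        have h8 : (1.22 : ℝ) ≤ Real.sqrt (3 / 2) := by
          apply Real.le_sqrt_of_sq_le
          norm_num
        nlinarith
      linarith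
    obtain ⟨P, S, T0, hPfin, -, -, hS, hT0A, hT0, hcov0⟩ := weak_marton' (K := K) hA
      hKid
    have hT0pos : (0 : ℝ) < T0.card := by
      obtain ⟨t, ht, -⟩ := hcov0 a ha
      exact_mod_cast card_pos.2 ⟨t, ht⟩
    set V0 : Submodule ℚ (ℚ ⊗[ℤ] Γ) := Submodule.span ℚ ((S.image (io Γ) : Finset (ℚ ⊗[ℤ] Γ)) : Set (ℚ ⊗[ℤ] Γ))
      with hV0
    have hV0fin : FiniteDimensional ℚ V0 := FiniteDimensional.span_finset ℚ _
    have hV0rank : Module.finrank ℚ V0 ≤ S.card :=
      (finrank_span_finset_le_card _).trans card_image_le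
    have hcov1 : ∀ a ∈ A, ∃ t ∈ T0, a - t ∈ pull V0 := by
      intro a ha
      obtain ⟨t, ht, o, ⟨n, hn, ho⟩, hmem⟩ := hcov0 a ha
      refine ⟨t, ht, ?_⟩
      have hPS : P ⊔ AddSubgroup.closure (S : Set Γ) ≤ pull V0 := by
        refine sup_le ?_ ?_
        · intro x hx
          have h1 : 0 < Nat.card P := Nat.card_pos
          have h2 : Nat.card P • (⟨x, hx⟩ : P) = 0 := card_nsmul_eq_zero'
          have h3 : Nat.card P • x = 0 := congrArg Subtype.val h2
          rw [mem_pull, io_of_torsion h1 h3]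
          exact Submodule.zero_mem _
        · rw [AddSubgroup.closure_le]
          intro x hx
          rw [SetLike.mem_coe, mem_pull]
          exact Submodule.subset_span (mem_coe.2 (mem_image_of_mem _ (mem_coe.1 hx)))
      have h1 := hPS hmem
      rw [mem_pull, map_sub, io_of_torsion hn.pos ho, sub_zero] at h1
      exact h1
    obtain ⟨V, hVfin, hVfix, hV⟩ := core (L := Submodule ℚ (ℚ ⊗[ℤ] Γ)) (G := G)
      {V | FiniteDimensional ℚ V}
      (fun V hV W _ => by
        have h1 : FiniteDimensional ℚ V := hV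
        exact Submodule.finiteDimensional_inf_left V W)
      (fun V hV W hW => by
        have h1 : FiniteDimensional ℚ V := hV
        have h2 : FiniteDimensional ℚ W := hW
        exact Submodule.finiteDimensional_sup V W)
      (fun g V => V.map (rhoe g).toLinearMap)
      (fun g V hV => by
        have h1 : FiniteDimensional ℚ V := hV
        exact Module.Finite.map V _)
      (fun g V => hq A (fun a => g • a) (pull V))
      (fun g k V => by
        refine hq_congr fun a _ b _ => ?_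
        rw [mem_pull, mem_pull, mem_map_rhoe, rho_io, smul_sub, smul_smul, smul_smul])
      (fun g V => hq_nonneg _ _ _)
      (fun g => (hq_range_finite A (fun a => g • a)).subset (by
        rintro _ ⟨V, rfl⟩
        exact ⟨pull V, rfl⟩))
      (fun g V _ W _ => by
        have h1 := hq_submod A (fun a => g • a) (V := pull V) (W := pull W) (X := pull (V ⊔ W))
          (fun x hx => (le_sup_left : V ≤ V ⊔ W) hx) (fun x hx => (le_sup_right : W ≤ V ⊔ W) hx)
        exact h1)
      (by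
        refine ((family_finite hG).image (fun f => fun V : Submodule ℚ (ℚ ⊗[ℤ] Γ) => f (pull V))).subset ?_
        rintro _ ⟨g, rfl⟩
        exact ⟨_, ⟨g, rfl⟩, rfl⟩)
      (fun V => Module.finrank ℚ V)
      (fun V hV W hW hVW => by
        have h1 : FiniteDimensional ℚ W := hW
        exact Submodule.finrank_lt_finrank_of_lt hVW)
      (fun g V => LinearEquiv.finrank_map_eq (rhoe g) V)
      (fun n => (n : ℝ))
      (fun M => by
        refine (Set.finite_Iic (⌈M⌉₊)).subset ?_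
        intro n hn
        have hn' : (n : ℝ) ≤ M := hn
        show n ≤ _
        exact_mod_cast hn'.trans (Nat.le_ceil _))
      (fun V hV W hW => by
        have h1 : FiniteDimensional ℚ V := hV
        have h2 : FiniteDimensional ℚ W := hW
        have h3 := Submodule.finrank_sup_add_finrank_inf_eq V W
        have h4 : ((Module.finrank ℚ (V ⊔ W : Submodule ℚ (ℚ ⊗[ℤ] Γ)) : ℝ) +
          Module.finrank ℚ (V ⊓ W : Submodule ℚ (ℚ ⊗[ℤ] Γ))) = Module.finrank ℚ V + Module.finrank ℚ W := by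
          exact_mod_cast h3
        linarith)
      V0 hV0fin (186 * Real.log K) (fun g => by
        have h1 := hq_le_of_add hA (fun a => g • a) (hK g) (pull V0) T0 hcov1
        refine h1.trans ?_
        have h2 : K * T0.card ≤ K ^ 186 := by
          calc K * T0.card ≤ K * K ^ 185 := mul_le_mul_of_nonneg_left hT0 hK0.le
            _ = K ^ 186 := by rw [← pow_succ']
        have h3 := Real.log_le_log (by positivity) h2
        rw [Real.log_pow] at h3
        exact_mod_cast h3)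
    have hVfin' : FiniteDimensional ℚ V := hVfin
    have hone' : hq A (fun a => (1 : G) • a) (pull V) = hq A (fun a => a) (pull V) := by
      simp only [one_smul]
    rw [hone'] at hV
    have hq0 := hq_nonneg A (fun a : Γ => a) (pull V)
    have hrank0 : (0 : ℝ) ≤ Module.finrank ℚ V := Nat.cast_nonneg _
    have hV0r : (Module.finrank ℚ V0 : ℝ) ≤ 480 * Real.log K + 1 := by
      have : (Module.finrank ℚ V0 : ℝ) ≤ S.card := by exact_mod_cast hV0rank
      linarith
    obtain ⟨S', hS'1, hS'2, hS'3⟩ := pull_gen V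
    obtain ⟨T, hTA, hT, hcov⟩ := cover_of_hq hA hKid hK0.le (pull V)
    refine ⟨pull V, S', T, ?_, fun x n hn hx => pull_pure hn hx, ?_, hS'2, hS'3, hTA, ?_, hcov⟩
    · intro g
      ext x
      rw [AddSubgroup.mem_pointwise_smul_iff_inv_smul_mem, mem_pull, mem_pull, ← rho_io,
        ← mem_map_rhoe]
      rw [hVfix g]
    · have : (S'.card : ℝ) ≤ Module.finrank ℚ V := by exact_mod_cast hS'1
      linarith
    · calc (T.card : ℝ) ≤ K * Real.exp (hq A (fun a => a) (pull V)) := hT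
        _ ≤ K * Real.exp (699 * Real.log K) := by
          refine mul_le_mul_of_nonneg_left (Real.exp_le_exp.2 ?_) hK0.le
          linarith
        _ = K ^ 700 := by
          have : (699 : ℝ) * Real.log K = ((699 : ℕ) : ℝ) * Real.log K := by norm_num
          rw [this, Real.exp_nat_mul, Real.exp_log hK0, ← pow_succ']

end Pool.Agent.W5h20.Sym
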