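import Mathlib
import Pool.Agent.W5h20.Sym.Rank

/-!
# Q1 for sets with symmetries
-/

set_option autoImplicit false

namespace Pool.Agent.W5h20.Sym

open Finset Pool.Agent.Y806.DF Pool.Agent.R92.Star Pool.Agent.R849.IS
open scoped Pointwise

universe u v

/-- `W` is a `G`-invariant subgroup of `Γ` of rank at most `r`, and `Γ / W` is torsion-free. -/
def Small (G : Type v) [Group G] {Γ : Type u} [AddCommGroup Γ] [DistribMulAction G Γ] (r : ℝ)
    (W : AddSubgroup Γ) : Prop :=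
  (∀ g : G, g • W = W) ∧ (∀ (x : Γ) (n : ℕ), 0 < n → n • x ∈ W → x ∈ W) ∧
    ∃ S : Finset Γ, (S.card : ℝ) ≤ r ∧ (∀ s ∈ S, s ∈ W) ∧
      ∀ x ∈ W, ∃ n : ℕ, 0 < n ∧ n • x ∈ AddSubgroup.closure (S : Set Γ)

theorem small_inv {Γ : Type u} [AddCommGroup Γ] [DecidableEq Γ] {G : Type v} [Group G]
    [DistribMulAction G Γ] {A : Finset Γ} (hA : A.Nonempty) (hG : FinTrans G A) {K : ℝ}
    (hK : ∀ g : G, ((A + g • A).card : ℝ) ≤ K * A.card) :
    ∃ (W : AddSubgroup Γ) (T : Finset Γ), Small G (700 * Real.log K) W ∧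
      T ⊆ A ∧ (T.card : ℝ) ≤ K ^ 700 ∧ ∀ a ∈ A, ∃ t ∈ T, a - t ∈ W := by
  obtain ⟨W, S, T, h1, h2, h3, h4, h5, h6, h7, h8⟩ := rank_inv hA hG hK
  exact ⟨W, T, ⟨h1, h2, S, h3, h4, h5⟩, h6, h7, h8⟩

/-- passing to a popular coset -/
theorem popular_sec {Γ : Type u} [AddCommGroup Γ] [DecidableEq Γ] {A T : Finset Γ} {K : ℝ}
    (hA : A.Nonempty) {N : ℕ} (hT : (T.card : ℝ) ≤ K ^ N) (W : AddSubgroup Γ)
    (hcov : ∀ a ∈ A, ∃ t ∈ T, a - t ∈ W) :
    ∃ t : Γ, (A.card : ℝ) ≤ K ^ N * (sec W A t).card := by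
  classical
  obtain ⟨t, ht, ht2⟩ := pigeon T A A hA (fun t a => a - t ∈ W) subset_rfl hcov
  refine ⟨t, ?_⟩
  rw [card_sec]
  calc (A.card : ℝ) ≤ T.card * (A.filter (fun a => a - t ∈ W)).card := by exact_mod_cast ht2
    _ ≤ _ := mul_le_mul_of_nonneg_right hT (Nat.cast_nonneg _)

/-- **Transfer of Q1 from a popular coset of a subgroup.** -/
theorem transferN (C : ℝ) (N : ℕ) : ∃ C' : ℝ, ∀ (Γ : Type u) [AddCommGroup Γ] [DecidableEq Γ]
    (W : AddSubgroup Γ) [DecidableEq W],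
    (∀ (K : ℝ) (S : Finset W), S.Nonempty → ((S + S).card : ℝ) ≤ K * S.card → Concl C K S) →
    ∀ (K : ℝ) (A : Finset Γ) (g : Γ), A.Nonempty → ((A + A).card : ℝ) ≤ K * A.card →
      (A.card : ℝ) ≤ K ^ N * (sec W A g).card → Concl C' K A := by
  obtain ⟨n, hn1, hn, hCK⟩ := nat_const C
  refine ⟨((5000 * ((N + 1) * (4 ^ n + 1)) ^ 5000 : ℕ) : ℝ), ?_⟩
  intro Γ _ _ W _ hW K A g hA hK hbig
  have hK1 := one_le_K hA hK
  have hK0 : 0 < K := by linarith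
  have hA0 : (0 : ℝ) < A.card := by exact_mod_cast hA.card_pos
  have hSne : (sec W A g).Nonempty := by
    rw [← card_pos]
    by_contra hcon
    have h0 : (sec W A g).card = 0 := by omega
    rw [h0, Nat.cast_zero, mul_zero] at hbig
    linarith
  have hSS : ((sec W A g + sec W A g).card : ℝ) ≤ K ^ (N + 1) * (sec W A g).card := by
    have h1 : ((sec W A g + sec W A g).card : ℝ) ≤ (A + A).card := by
      exact_mod_cast card_sec_add W A g
    calc ((sec W A g + sec W A g).card : ℝ) ≤ K * A.card := h1.trans hK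
      _ ≤ K * (K ^ N * (sec W A g).card) := mul_le_mul_of_nonneg_left hbig hK0.le
      _ = K ^ (N + 1) * (sec W A g).card := by ring
  obtain ⟨e, X, ψ, H, g', hD⟩ := data_of_concl hn1 hn hCK hSne hSS (hW _ _ hSne hSS)
  have hM1 : (1 : ℝ) ≤ K ^ N := one_le_pow₀ hK1
  have hL1 : (0 : ℝ) ≤ ((4 ^ n : ℕ) : ℝ) * (K ^ (N + 1)) ^ (4 ^ n : ℕ) := by positivity
  obtain ⟨ψ', H', g₁, hD'⟩ := data_sec W hM1 hL1 hbig hD
  have hn' : 1 ≤ (N + 1) * (4 ^ n + 1) := Nat.one_le_iff_ne_zero.2 (by positivity)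
  refine concl_of_data hn' hA hK (hD'.mono ?_)
  have e1 : ((4 ^ n : ℕ) : ℝ) ≤ (((N + 1) * (4 ^ n + 1) : ℕ) : ℝ) := by
    have : 4 ^ n ≤ (N + 1) * (4 ^ n + 1) := by nlinarith [Nat.zero_le N, Nat.zero_le (4 ^ n)]
    exact_mod_cast this
  have e2 : K ^ (N + (N + 1) * 4 ^ n) ≤ K ^ ((N + 1) * (4 ^ n + 1)) :=
    pow_le_pow_right₀ hK1 (by nlinarith [Nat.zero_le N, Nat.zero_le (4 ^ n)])
  calc K ^ N * (((4 ^ n : ℕ) : ℝ) * (K ^ (N + 1)) ^ (4 ^ n : ℕ))
      = ((4 ^ n : ℕ) : ℝ) * K ^ (N + (N + 1) * 4 ^ n) := by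
        rw [← pow_mul, pow_add]
        ring
    _ ≤ (((N + 1) * (4 ^ n + 1) : ℕ) : ℝ) * K ^ ((N + 1) * (4 ^ n + 1)) :=
        mul_le_mul e1 e2 (by positivity) (Nat.cast_nonneg _)

/-- **Q1 for a set follows from Q1 for the invariant subgroups of small rank.** -/
theorem q1_of_small (C : ℝ) : ∃ C' : ℝ, ∀ (Γ : Type u) [AddCommGroup Γ] [DecidableEq Γ]
    (G : Type v) [Group G] [DistribMulAction G Γ] (K : ℝ) (A : Finset Γ), A.Nonempty →
    FinTrans G A → (∀ g : G, ((A + g • A).card : ℝ) ≤ K * A.card) →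
    (∀ (W : AddSubgroup Γ) [DecidableEq W], Small G (700 * Real.log K) W →
      ∀ (L : ℝ) (S : Finset W), S.Nonempty → ((S + S).card : ℝ) ≤ L * S.card → Concl C L S) →
    Concl C' K A := by
  obtain ⟨C', hC'⟩ := transferN.{u} C 700
  refine ⟨C', ?_⟩
  intro Γ _ _ G _ _ K A hA hG hK hW
  classical
  have hKid : ((A + A).card : ℝ) ≤ K * A.card := by
    have := hK 1
    rwa [one_smul] at this
  obtain ⟨W, T, hsm, -, hT, hcov⟩ := small_inv hA hG hK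
  obtain ⟨t, ht⟩ := popular_sec hA hT W hcov
  exact hC' Γ W (fun L S hS hL => hW W hsm L S hS hL) K A t hA hKid ht

/-- Q1 if the invariant subgroups of small rank are of bounded exponent. -/
theorem q1_of_torsion (m : ℕ) (hm : 0 < m) : ∃ C' : ℝ, ∀ (Γ : Type u) [AddCommGroup Γ]
    [DecidableEq Γ] (G : Type v) [Group G] [DistribMulAction G Γ] (K : ℝ) (A : Finset Γ),
    A.Nonempty → FinTrans G A → (∀ g : G, ((A + g • A).card : ℝ) ≤ K * A.card) →
    (∀ W : AddSubgroup Γ, Small G (700 * Real.log K) W → ∀ x ∈ W, m • x = 0) →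
    Concl C' K A := by
  obtain ⟨C, hC⟩ := torsion_concl.{u} m hm
  obtain ⟨C', hC'⟩ := q1_of_small.{u, v} C
  refine ⟨C', ?_⟩
  intro Γ _ _ G _ _ K A hA hG hK hW
  refine hC' Γ G K A hA hG hK ?_
  intro W _ hsm L S hS hL
  exact hC W (fun x => Subtype.ext (by simpa using hW W hsm x x.2)) L S hS hL

/-- small sets -/
theorem card_le_of_trivial {Γ : Type u} [AddCommGroup Γ] [DecidableEq Γ] {G : Type v} [Group G]
    [DistribMulAction G Γ] {A : Finset Γ} (hA : A.Nonempty) (hG : FinTrans G A) {K : ℝ}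
    (hK : ∀ g : G, ((A + g • A).card : ℝ) ≤ K * A.card)
    (hW : ∀ W : AddSubgroup Γ, Small G (700 * Real.log K) W → W = ⊥) : (A.card : ℝ) ≤ K ^ 700 := by
  obtain ⟨W, T, hsm, -, hT, hcov⟩ := small_inv hA hG hK
  have h0 := hW W hsm
  subst h0
  refine le_trans ?_ hT
  have : A ⊆ T := by
    intro a ha
    obtain ⟨t, ht, hat⟩ := hcov a ha
    rw [AddSubgroup.mem_bot, sub_eq_zero] at hat
    rw [hat]
    exact ht
  exact_mod_cast card_le_card this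

end Pool.Agent.W5h20.Sym
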