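import Mathlib
import Pool.Agent.W5h20.Sym.Q1

/-!
# Examples: roots of unity and permutations of the coordinates
-/

set_option autoImplicit false

namespace Pool.Agent.W5h20.Sym

open Finset Pool.Agent.Y806.DF Pool.Agent.R92.Star Pool.Agent.R849.IS
open scoped Pointwise TensorProduct

universe u v

/-- independent elements in a group of small rank -/
theorem rank_bound {Γ : Type u} [AddCommGroup Γ] {W : AddSubgroup Γ} {S : Finset Γ}
    (hS : ∀ x ∈ W, ∃ n : ℕ, 0 < n ∧ n • x ∈ AddSubgroup.closure (S : Set Γ))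
    {ι : Type v} [Fintype ι] {w : ι → Γ} (hw : LinearIndependent ℤ w) (hwW : ∀ i, w i ∈ W) :
    Fintype.card ι ≤ S.card := by
  classical
  have h1 : LinearIndependent ℚ (io Γ ∘ w) := hw.of_isLocalizedModule ℚ (nonZeroDivisors ℤ) (io Γ)
  set V : Submodule ℚ (ℚ ⊗[ℤ] Γ) :=
    Submodule.span ℚ ((S.image (io Γ) : Finset (ℚ ⊗[ℤ] Γ)) : Set (ℚ ⊗[ℤ] Γ)) with hV
  have hVfin : FiniteDimensional ℚ V := FiniteDimensional.span_finset ℚ _
  have hVrank : Module.finrank ℚ V ≤ S.card :=
    (finrank_span_finset_le_card _).trans card_image_le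
  have hcl : ∀ x ∈ AddSubgroup.closure (S : Set Γ), io Γ x ∈ V := by
    intro x hx
    have : AddSubgroup.closure (S : Set Γ) ≤ pull V := by
      rw [AddSubgroup.closure_le]
      intro y hy
      rw [SetLike.mem_coe, mem_pull]
      exact Submodule.subset_span (mem_coe.2 (mem_image_of_mem _ (mem_coe.1 hy)))
    exact this hx
  have h2 : ∀ i, io Γ (w i) ∈ V := by
    intro i
    obtain ⟨n, hn, hx⟩ := hS _ (hwW i)
    exact pull_pure (V := V) hn (hcl _ hx)
  have h3 : Submodule.span ℚ (Set.range (io Γ ∘ w)) ≤ V := by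
    rw [Submodule.span_le]
    rintro _ ⟨i, rfl⟩
    exact h2 i
  have h4 := finrank_span_eq_card h1
  rw [← h4]
  exact (Submodule.finrank_mono h3).trans hVrank

/-- **Sets with small sums with their multiples by the powers of a root of unity.** -/
theorem cyclotomic_case {F : Type u} [Field F] [CharZero F] [DecidableEq F] {ζ : F} {n : ℕ}
    (hn : 0 < n) (hζ : IsPrimitiveRoot ζ n) {K : ℝ} {A : Finset F} (hA : A.Nonempty)
    (hK : ∀ j : ℕ, ((A + A.image (fun a => ζ ^ j * a)).card : ℝ) ≤ K * A.card)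
    (hbig : 700 * Real.log K < n.totient) : (A.card : ℝ) ≤ K ^ 700 := by
  classical
  have hζ0 : ζ ≠ 0 := hζ.ne_zero hn.ne'
  set u : Fˣ := Units.mk0 ζ hζ0 with hu
  have hupow : u ^ n = 1 := by
    ext
    rw [Units.val_pow_eq_pow_val, hu, Units.val_mk0, hζ.pow_eq_one, Units.val_one]
  have hfinord : IsOfFinOrder u := isOfFinOrder_iff_pow_eq_one.2 ⟨n, hn, hupow⟩
  have hfin : Finite (Subgroup.zpowers u) := finite_zpowers.2 hfinord
  have hG : FinTrans (Subgroup.zpowers u) A := finTrans_of_finite (G := Subgroup.zpowers u) A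
  have hact : ∀ g : Subgroup.zpowers u, ∃ j : ℕ, ∀ a : F, g • a = ζ ^ j * a := by
    rintro ⟨g, hg⟩
    obtain ⟨j, -, rfl⟩ := mem_image.1 (hfinord.mem_zpowers_iff_mem_range_orderOf.1 hg)
    refine ⟨j, fun a => ?_⟩
    rw [Subgroup.smul_def, Units.smul_def, Units.val_pow_eq_pow_val, smul_eq_mul]
    rfl
  refine card_le_of_trivial (G := Subgroup.zpowers u) hA hG ?_ ?_
  · intro g
    obtain ⟨j, hj⟩ := hact g
    have : g • A = A.image (fun a => ζ ^ j * a) := by
      ext x
      rw [mem_smul_finset, mem_image]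
      simp only [hj]
    rw [this]
    exact hK j
  · rintro W ⟨hW1, hW2, S, hS1, hS2, hS3⟩
    by_contra hne
    obtain ⟨w, hw, hw0⟩ : ∃ w, w ∈ W ∧ w ≠ 0 := by
      obtain ⟨x, hx⟩ := AddSubgroup.ne_bot_iff_exists_ne_zero.1 hne
      exact ⟨x.1, x.2, fun h => hx (Subtype.ext h)⟩
    have hmem : ∀ j : ℕ, ζ ^ j * w ∈ W := by
      intro j
      have h1 := hW1 (⟨u ^ j, Subgroup.npow_mem_zpowers u j⟩ : Subgroup.zpowers u)
      rw [← h1, AddSubgroup.mem_smul_pointwise_iff_exists]
      refine ⟨w, hw, ?_⟩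
      rw [Subgroup.smul_def, Units.smul_def]
      show ((u ^ j : Fˣ) : F) • w = _
      rw [Units.val_pow_eq_pow_val, smul_eq_mul]
      rfl
    have hdeg : (minpoly ℚ ζ).natDegree = n.totient := by
      rw [← Polynomial.cyclotomic_eq_minpoly_rat hζ hn, Polynomial.natDegree_cyclotomic]
    have h2 : LinearIndependent ℚ (fun i : Fin (minpoly ℚ ζ).natDegree => ζ ^ (i : ℕ)) :=
      linearIndependent_pow ζ
    have h3 : LinearIndependent ℚ (fun i : Fin (minpoly ℚ ζ).natDegree => ζ ^ (i : ℕ) * w) := by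
      have h4 := h2.map' (LinearMap.mulRight ℚ w)
        (LinearMap.ker_eq_bot.2 (mul_left_injective₀ hw0))
      exact h4
    have h5 : LinearIndependent ℤ (fun i : Fin (minpoly ℚ ζ).natDegree => ζ ^ (i : ℕ) * w) := by
      refine h3.restrict_scalars' ℤ
    have h6 := rank_bound hS3 h5 (fun i => hmem i)
    rw [Fintype.card_fin, hdeg] at h6
    have h7 : ((n.totient : ℕ) : ℝ) ≤ S.card := by exact_mod_cast h6
    linarith

/-- **Sets with small sums with their images under the permutations of the coordinates.** -/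
theorem permutation_case {Γ : Type u} [AddCommGroup Γ] {ι : Type v} [Fintype ι] [DecidableEq ι]
    [DecidableEq (ι → Γ)] {K : ℝ} {A : Finset (ι → Γ)} (hA : A.Nonempty)
    (hK : ∀ π : Equiv.Perm ι, ((A + A.image (fun a i => a (π i))).card : ℝ) ≤ K * A.card)
    (hbig : 700 * Real.log K + 1 < Fintype.card ι) :
    ∃ T ⊆ A, (T.card : ℝ) ≤ K ^ 700 ∧ ∀ a ∈ A, ∃ t ∈ T, ∀ i j, ∃ n : ℕ, 0 < n ∧
      n • ((a - t) i - (a - t) j) = 0 := by
  classical
  have hfin : Finite (Equiv.Perm ι)ᵈᵐᵃ := Finite.of_equiv (Equiv.Perm ι) DomMulAct.mk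
  have hG : FinTrans (Equiv.Perm ι)ᵈᵐᵃ A := finTrans_of_finite (G := (Equiv.Perm ι)ᵈᵐᵃ) A
  obtain ⟨W, T, ⟨hW1, hW2, S, hS1, hS2, hS3⟩, hTA, hT, hcov⟩ :=
    small_inv (G := (Equiv.Perm ι)ᵈᵐᵃ) hA hG (K := K) (by
      intro g
      have : g • A = A.image (fun a i => a (DomMulAct.mk.symm g i)) := by
        ext x
        rw [mem_smul_finset, mem_image]
        rfl
      rw [this]
      exact hK _)
  have hperm : ∀ (w : ι → Γ), w ∈ W → ∀ π : Equiv.Perm ι, (fun i => w (π i)) ∈ W := by
    intro w hw π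
    have h1 := hW1 (DomMulAct.mk π)
    rw [← h1, AddSubgroup.mem_smul_pointwise_iff_exists]
    exact ⟨w, hw, rfl⟩
  refine ⟨T, hTA, hT, ?_⟩
  intro a ha
  obtain ⟨t, ht, hat⟩ := hcov a ha
  refine ⟨t, ht, ?_⟩
  by_contra hcon
  push Not at hcon
  obtain ⟨i, j, hij⟩ := hcon
  set w : ι → Γ := a - t with hw
  set y : Γ := w i - w j with hy
  have hne : i ≠ j := by
    rintro rfl
    exact hij 1 one_pos (by rw [hy, sub_self, smul_zero])
  have hy2 : ∀ c : ℤ, c • y = 0 → c = 0 := by
    intro c hc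
    by_contra hc0
    refine hij c.natAbs (Int.natAbs_pos.2 hc0) ?_
    rcases Int.natAbs_eq c with h | h
    · rw [h] at hc
      rw [← natCast_zsmul]
      exact hc
    · rw [h, neg_smul, neg_eq_zero] at hc
      rw [← natCast_zsmul]
      exact hc
  have hv : ∀ k : ι, k ≠ i → (Pi.single i y - Pi.single k y : ι → Γ) ∈ W := by
    have h0 : (Pi.single i y - Pi.single j y : ι → Γ) ∈ W := by
      have h1 : (Pi.single i y - Pi.single j y : ι → Γ) = w - fun l => w (Equiv.swap i j l) := by
        ext l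
        rw [Pi.sub_apply, Pi.sub_apply]
        by_cases hli : l = i
        · subst hli
          rw [Pi.single_eq_same, Pi.single_eq_of_ne hne, Equiv.swap_apply_left, sub_zero]
        · by_cases hlj : l = j
          · subst hlj
            rw [Pi.single_eq_same, Pi.single_eq_of_ne hli, Equiv.swap_apply_right, zero_sub, hy,
              neg_sub]
          · rw [Pi.single_eq_of_ne hli, Pi.single_eq_of_ne hlj,
              Equiv.swap_apply_of_ne_of_ne hli hlj, sub_self, sub_self]
      rw [h1]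
      exact W.sub_mem hat (hperm w hat _)
    intro k hk
    have h2 := hperm _ h0 (Equiv.swap j k)
    have h3 : (Pi.single i y - Pi.single k y : ι → Γ) =
        fun l => (Pi.single i y - Pi.single j y : ι → Γ) (Equiv.swap j k l) := by
      ext l
      rw [Pi.sub_apply, Pi.sub_apply]
      congr 1
      · by_cases hli : l = i
        · subst hli
          rw [Equiv.swap_apply_of_ne_of_ne hne hk.symm]
        · rw [Pi.single_eq_of_ne hli, Pi.single_eq_of_ne]
          intro h
          apply hli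
          rw [Equiv.swap_apply_eq_iff, Equiv.swap_apply_of_ne_of_ne hne hk.symm] at h
          exact h
      · by_cases hlk : l = k
        · subst hlk
          rw [Equiv.swap_apply_right, Pi.single_eq_same, Pi.single_eq_same]
        · rw [Pi.single_eq_of_ne hlk, Pi.single_eq_of_ne]
          intro h
          apply hlk
          rw [Equiv.swap_apply_eq_iff, Equiv.swap_apply_left] at h
          exact h
    rw [h3]
    exact h2
  have hlin : LinearIndependent ℤ
      (fun k : {k : ι // k ≠ i} => (Pi.single i y - Pi.single (k : ι) y : ι → Γ)) := by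
    rw [Fintype.linearIndependent_iff]
    intro c hc k
    have h1 := congrFun hc (k : ι)
    rw [Finset.sum_apply, Finset.sum_eq_single k] at h1
    · rw [Pi.smul_apply, Pi.sub_apply, Pi.single_eq_of_ne k.2, Pi.single_eq_same, zero_sub,
        smul_neg, Pi.zero_apply, neg_eq_zero] at h1
      exact hy2 _ h1
    · intro l _ hl
      rw [Pi.smul_apply, Pi.sub_apply, Pi.single_eq_of_ne k.2, Pi.single_eq_of_ne, sub_self,
        smul_zero]
      intro h
      exact hl (Subtype.ext h.symm)
    · intro h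
      exact absurd (mem_univ _) h
  have h4 := rank_bound hS3 hlin (fun k => hv k k.2)
  have h5 : Fintype.card {k : ι // k ≠ i} = Fintype.card ι - 1 := by
    rw [Fintype.card_subtype_compl, Fintype.card_subtype_eq]
  rw [h5] at h4
  have h6 : Fintype.card ι ≤ S.card + 1 := by omega
  have h7 : (Fintype.card ι : ℝ) ≤ S.card + 1 := by exact_mod_cast h6
  linarith

end Pool.Agent.W5h20.Sym
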