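import Mathlib
import Pool.Agent.W5h20.Sym.Tors

/-!
# Example: multiplicative groups of finite fields
-/

set_option autoImplicit false

namespace Pool.Agent.W5h20.Sym

open Finset
open scoped Pointwise

universe u v

/-- **Sets with small sums with their multiples by a group which generates a finite field.** -/
theorem field_case {F : Type u} [Field F] [Fintype F] [DecidableEq F] {p : ℕ} [CharP F p]
    (hp : p.Prime) (G : Subgroup Fˣ)
    (hgen : Subring.closure {x : F | ∃ g ∈ G, (g : F) = x} = ⊤) {K : ℝ} {A : Finset F}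
    (hA : A.Nonempty) (hK : ∀ g ∈ G, ((A + A.image (fun a => (g : F) * a)).card : ℝ) ≤ K * A.card) :
    (A.card : ℝ) ≤ (2 * K) ^ (82010 * (Nat.log 2 p + 1) + 3) ∨
      (Fintype.card F : ℝ) ≤ (2 * K) ^ (82010 * (Nat.log 2 p + 1) + 2) * A.card := by
  classical
  have hfin : Finite G := inferInstance
  have hG : FinTrans G A := finTrans_of_finite (G := G) A
  obtain ⟨H, T, -, hH, hHc, hTA, hT, hcov⟩ := marton_inv (G := G) (m := p) hp.pos
    (fun x => by rw [nsmul_eq_mul, CharP.cast_eq_zero, zero_mul]) hA hG (K := K) rfl (by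
      intro g
      have : g • A = A.image (fun a => ((g : Fˣ) : F) * a) := by
        ext x
        rw [mem_smul_finset, mem_image]
        rfl
      rw [this]
      exact hK g.1 g.2)
  have e1 : 2 * (41005 * (Nat.log 2 p + 1)) + 3 = 82010 * (Nat.log 2 p + 1) + 3 := by ring
  have e2 : 2 * (41005 * (Nat.log 2 p + 1)) + 2 = 82010 * (Nat.log 2 p + 1) + 2 := by ring
  rw [e1] at hT
  rw [e2] at hHc
  -- the subring of all `x` with `x H ⊆ H`
  let R : Subring F :=
    { carrier := {x | ∀ y ∈ H, x * y ∈ H}
      mul_mem' := fun {a b} ha hb y hy => by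
        rw [mul_assoc]
        exact ha _ (hb _ hy)
      one_mem' := fun y hy => by rwa [one_mul]
      add_mem' := fun {a b} ha hb y hy => by
        rw [add_mul]
        exact H.add_mem (ha _ hy) (hb _ hy)
      zero_mem' := fun y _ => by
        rw [zero_mul]
        exact H.zero_mem
      neg_mem' := fun {a} ha y hy => by
        rw [neg_mul]
        exact H.neg_mem (ha _ hy) }
  have hR : R = ⊤ := by
    rw [eq_top_iff, ← hgen, Subring.closure_le]
    rintro x ⟨g, hg, rfl⟩ y hy
    have h1 := hH ⟨g, hg⟩
    rw [← h1, AddSubgroup.mem_smul_pointwise_iff_exists]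
    exact ⟨y, hy, rfl⟩
  by_cases hb : H = ⊥
  · left
    refine le_trans ?_ hT
    have : A ⊆ T := by
      intro a ha
      obtain ⟨t, ht, hat⟩ := hcov a ha
      rw [hb, AddSubgroup.mem_bot, sub_eq_zero] at hat
      rw [hat]
      exact ht
    exact_mod_cast card_le_card this
  · right
    refine le_trans ?_ hHc
    obtain ⟨⟨w, hw⟩, hw0⟩ := AddSubgroup.ne_bot_iff_exists_ne_zero.1 hb
    have hw0' : w ≠ 0 := fun h => hw0 (Subtype.ext h)
    have htop : H = ⊤ := by
      rw [eq_top_iff]
      intro x _
      have h1 : x * w⁻¹ ∈ R := by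
        rw [hR]
        exact Subring.mem_top _
      have h2 := h1 w hw
      rwa [mul_assoc, inv_mul_cancel₀ hw0', mul_one] at h2
    rw [htop, AddSubgroup.card_top, Nat.card_eq_fintype_card]

end Pool.Agent.W5h20.Sym
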