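import Mathlib
import Pool.Agent.W5h20.Sym.ExT

/-!
# The polynomial Freiman-Ruzsa theorem for bounded exponent, with an invariant subgroup

Let `Γ` be an abelian group of exponent `m`, `G` a group of automorphisms of `Γ`, and `A ⊆ Γ` finite and
nonempty with `|A + g A| ≤ K |A|` for all `g ∈ G`, where `G` is finite, or `A` has only finitely many
images under `G` up to translation. Then `A` is covered by `(2 K) ^ (82010 (⌊log₂ m⌋ + 1) + 3)` cosets of
a finite subgroup `H` with `g H = H` for all `g ∈ G` and
`|H| ≤ (2 K) ^ (82010 (⌊log₂ m⌋ + 1) + 2) |A|`. The bounds do not depend on `G`, and up to the exponent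
this characterises these sets: if `A` is in `L` cosets of an invariant subgroup `H` with `|H| ≤ L |A|`
then `|A + g A| ≤ L ^ 3 |A|` for all `g ∈ G`.

The starting result `Submodules` has an invariant subgroup under the much stronger hypothesis
`|A + r A| ≤ K |A|` for all `r` in a ring of endomorphisms, for example in the group ring `ℤ[G]`; here only
the elements `g ∈ G` themselves are used.

An example (`field_case` in `Pool.Agent.W5h20.Sym.ExT`): let `F` be a finite field of characteristic `p`,
`G` a subgroup of the multiplicative group which generates the ring `F`, and `A ⊆ F` nonempty with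
`|A + g A| ≤ K |A|` for all `g ∈ G`. Then `|A| ≤ (2 K) ^ C` or `|F| ≤ (2 K) ^ C |A|`, where
`C = 82010 (⌊log₂ p⌋ + 1) + 3` (for example `G` may be generated by one element, of small order).

Proof. By the theorem for bounded exponent (Gowers, Green, Manners and Tao; `TH404.Tor` in the starting
library) `A` is in few cosets of a subgroup `H₀` with `|H₀| ≤ |A|`. Let `h (g, V)` be the entropy of `g x`
modulo `V` for `x` uniform on `A`, a submodular function of the subgroup `V`. Since
`|A + g A| ≤ K |A|`, `h (g, H₀)` is small for all `g ∈ G`. By averaging over the finitely many functions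
`h (g, ·)` and by submodularity (`core` in `Sym.Lat`), there is an invariant subgroup `V` at which
`log |V| + 2 h (1, V)` is at most as large as this bound for `H₀`.
-/

set_option autoImplicit false

namespace Pool.Agent.W5h20.Sym.InvariantMartonResult

open Finset Pool.Agent.W5h20.Sym
open scoped Pointwise

universe u v

theorem result (Γ : Type u) [AddCommGroup Γ] [DecidableEq Γ] (m : ℕ) (hm : 0 < m)
    (hΓ : ∀ x : Γ, m • x = 0) (G : Type v) [Group G] [DistribMulAction G Γ] (K : ℝ) (A : Finset Γ)
    (hA : A.Nonempty) (hG : FinTrans G A) (hK : ∀ g : G, ((A + g • A).card : ℝ) ≤ K * A.card) :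
    ∃ (H : AddSubgroup Γ) (T : Finset Γ), Finite H ∧ (∀ g : G, g • H = H) ∧
      (Nat.card H : ℝ) ≤ (2 * K) ^ (82010 * (Nat.log 2 m + 1) + 2) * A.card ∧ T ⊆ A ∧
      (T.card : ℝ) ≤ (2 * K) ^ (82010 * (Nat.log 2 m + 1) + 3) ∧ ∀ a ∈ A, ∃ t ∈ T, a - t ∈ H := by
  obtain ⟨H, T, h1, h2, h3, h4, h5, h6⟩ := marton_inv hm hΓ hA hG rfl hK
  have e1 : 2 * (41005 * (Nat.log 2 m + 1)) + 3 = 82010 * (Nat.log 2 m + 1) + 3 := by ring
  have e2 : 2 * (41005 * (Nat.log 2 m + 1)) + 2 = 82010 * (Nat.log 2 m + 1) + 2 := by ring
  rw [e1] at h5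
  rw [e2] at h3
  exact ⟨H, T, h1, h2, h3, h4, h5, h6⟩

end Pool.Agent.W5h20.Sym.InvariantMartonResult
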